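import Pool.Agent.H37.PB.Defs
import Pool.Agent.H37.PV.Root

/-!
PB Ro: the number of roots of `h` modulo `q` is at least `np K q`.

See `Pool/Agent/H37/PV/Root.lean` (`root_of_np`: existence of a root; copy the proof): `K = AdjoinRoot (factor of h over ℚ)`, `θ` a root of `h`,
`a` = leading coefficient, `α = a θ ∈ 𝓞 K`; `φ : 𝓞 K →+* ZMod q` gives the root `t = φ(α)/a` of `h` mod `q` (`q > |a|`).
Injectivity for large `q`: take a ℤ-basis `b_j` of `𝓞 K` (`RingOfIntegers.basis K`); `K = ℚ(θ) = ℚ(α)`, so `d_j b_j = Q_j(α)`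
with `d_j ≠ 0` an integer and `Q_j ∈ ℤ[X]` (clear denominators).  If `φ(α) = ψ(α)` and `q` divides no `d_j` then `φ(b_j) = ψ(b_j)` for
all `j`, `φ = ψ`.  `B` = max of `|a|` and the `|d_j|`.
`rt_card_le`: `h` mod `q` is not zero (leading coefficient), at most `natDegree` roots.
-/

set_option autoImplicit false

namespace Pool.Agent.H37.PB

open Finset Polynomial Pool.Agent.H37.PPC Pool.Agent.H37.PPD Pool.Agent.H24.FD NumberField

private theorem Ro_ne {a : ℤ} (ha : a ≠ 0) {q : ℕ} (hB : a.natAbs < q) : ((a : ℤ) : ZMod q) ≠ 0 := by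
  intro h
  rw [ZMod.intCast_zmod_eq_zero_iff_dvd] at h
  have h1 := Int.natAbs_dvd_natAbs.2 h
  simp only [Int.natAbs_natCast] at h1
  have h4 := Nat.le_of_dvd (Int.natAbs_pos.2 ha) h1
  omega

private theorem Ro_root (g : ℤ[X]) (K : Type) [Field K] [NumberField K] (θ : K) (hθ : aeval θ g = 0)
    (α : 𝓞 K) (hα : (algebraMap (𝓞 K) K) α = algebraMap ℤ K g.leadingCoeff * θ) (q : ℕ)
    (hq : q.Prime) (hB : g.leadingCoeff.natAbs < q) (hg0 : g ≠ 0) (φ : 𝓞 K →+* ZMod q) :
    (q : ℤ) ∣ g.eval ((((g.leadingCoeff : ZMod q)⁻¹ * φ α).val : ℕ) : ℤ) := by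
  haveI : Fact q.Prime := ⟨hq⟩
  set a : ℤ := g.leadingCoeff with ha
  have ha0 : a ≠ 0 := leadingCoeff_ne_zero.2 hg0
  have h1 : aeval (algebraMap ℤ K a * θ) (scaleRoots g a) = 0 := scaleRoots_aeval_eq_zero hθ
  have h2 : aeval α (scaleRoots g a) = 0 := by
    apply (FaithfulSMul.algebraMap_injective (𝓞 K) K)
    rw [map_zero, ← h1, ← hα, aeval_algebraMap_apply]
  have h3 : eval₂ (Int.castRingHom (ZMod q)) (φ α) (scaleRoots g a) = 0 := by
    have := congrArg φ h2
    rw [map_zero, aeval_def, hom_eval₂] at this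
    have hc : φ.comp (algebraMap ℤ (𝓞 K)) = Int.castRingHom (ZMod q) := RingHom.ext_int _ _
    rwa [hc] at this
  have haq : ((a : ℤ) : ZMod q) ≠ 0 := Ro_ne ha0 hB
  set t : ZMod q := (a : ZMod q)⁻¹ * φ α with ht
  have hat : (Int.castRingHom (ZMod q)) a * t = φ α := by
    rw [ht, ← mul_assoc]
    simp only [Int.coe_castRingHom]
    rw [mul_inv_cancel₀ haq, one_mul]
  have h5 := scaleRoots_eval₂_mul (p := g) (Int.castRingHom (ZMod q)) t a
  rw [hat, h3] at h5
  have h6 : eval₂ (Int.castRingHom (ZMod q)) t g = 0 := by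
    rcases mul_eq_zero.1 h5.symm with h | h
    · exact absurd h (pow_ne_zero _ haq)
    · exact h
  rw [← ZMod.intCast_zmod_eq_zero_iff_dvd]
  have h7 : ((t.val : ℤ) : ZMod q) = t := by
    rw [Int.cast_natCast, ZMod.natCast_zmod_val]
  have h8 := eval₂_at_apply (p := g) (Int.castRingHom (ZMod q)) (t.val : ℤ)
  simp only [Int.coe_castRingHom] at h8
  rw [← h8]
  rw [h7]
  exact h6

/-- a common denominator for the integers of `K` with respect to `ℤ[α]` -/
private theorem Ro_den (K : Type) [Field K] [NumberField K] (α : 𝓞 K)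
    (h : ∀ b : K, ∃ Q : ℚ[X], aeval ((algebraMap (𝓞 K) K) α) Q = b) :
    ∃ D : ℤ, D ≠ 0 ∧ ∀ b : 𝓞 K, ∃ R : ℤ[X], D • b = aeval α R := by
  classical
  have h1 : ∀ b : 𝓞 K, ∃ d : ℤ, d ≠ 0 ∧ ∃ R : ℤ[X], aeval α R = d • b := by
    intro b
    obtain ⟨Q, hQ⟩ := h (algebraMap (𝓞 K) K b)
    obtain ⟨d, hd, hR⟩ := IsLocalization.integerNormalization_spec (nonZeroDivisors ℤ) Q
    refine ⟨d, nonZeroDivisors.ne_zero hd, IsLocalization.integerNormalization (nonZeroDivisors ℤ) Q, ?_⟩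
    apply (FaithfulSMul.algebraMap_injective (𝓞 K) K)
    rw [← aeval_algebraMap_apply, ← aeval_map_algebraMap ℚ, hR]
    rw [map_zsmul (algebraMap (𝓞 K) K), ← hQ, map_zsmul]
  choose d hd0 R hR using h1
  let bs := RingOfIntegers.basis K
  refine ⟨∏ j, d (bs j), Finset.prod_ne_zero_iff.2 fun j _ => hd0 _, ?_⟩
  have h2 : ∀ j, (∏ i, d (bs i)) • bs j ∈ Subalgebra.toSubmodule (aeval α : ℤ[X] →ₐ[ℤ] 𝓞 K).range := by
    intro j
    obtain ⟨c, hc⟩ := Finset.dvd_prod_of_mem (fun i => d (bs i)) (Finset.mem_univ j)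
    rw [hc, mul_comm, mul_smul]
    apply Submodule.smul_mem
    rw [Subalgebra.mem_toSubmodule]
    exact ⟨R (bs j), hR (bs j)⟩
  intro b
  have h3 : (∏ i, d (bs i)) • b ∈ Subalgebra.toSubmodule (aeval α : ℤ[X] →ₐ[ℤ] 𝓞 K).range := by
    rw [← bs.sum_repr b, Finset.smul_sum]
    apply Submodule.sum_mem
    intro j _
    rw [smul_comm]
    exact Submodule.smul_mem _ _ (h2 j)
  rw [Subalgebra.mem_toSubmodule] at h3
  obtain ⟨Q, hQ⟩ := h3
  exact ⟨Q, hQ.symm⟩

private theorem Ro_inj (K : Type) [Field K] [NumberField K] (α : 𝓞 K) {D : ℤ} (hD : D ≠ 0)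
    (h : ∀ b : 𝓞 K, ∃ R : ℤ[X], D • b = aeval α R) (q : ℕ) (hq : q.Prime) (hB : D.natAbs < q)
    (φ ψ : 𝓞 K →+* ZMod q) (he : φ α = ψ α) : φ = ψ := by
  haveI : Fact q.Prime := ⟨hq⟩
  have hD' : ((D : ℤ) : ZMod q) ≠ 0 := Ro_ne hD hB
  have key : ∀ (χ : 𝓞 K →+* ZMod q) (R : ℤ[X]), χ (aeval α R) =
      eval₂ (Int.castRingHom (ZMod q)) (χ α) R := by
    intro χ R
    rw [aeval_def, hom_eval₂]
    have hc : χ.comp (algebraMap ℤ (𝓞 K)) = Int.castRingHom (ZMod q) := RingHom.ext_int _ _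
    rw [hc]
  ext b
  obtain ⟨R, hR⟩ := h b
  have h1 : ∀ χ : 𝓞 K →+* ZMod q, (D : ZMod q) * χ b = eval₂ (Int.castRingHom (ZMod q)) (χ α) R := by
    intro χ
    rw [← key χ R, ← hR, zsmul_eq_mul, map_mul, map_intCast]
  apply mul_left_cancel₀ hD'
  rw [h1 φ, h1 ψ, he]

theorem np_le_rt (h : ℤ[X]) (hd : 1 ≤ h.natDegree) :
    ∃ (K : Type) (_ : Field K) (_ : NumberField K) (B : ℕ), ∀ q : ℕ, q.Prime → B < q →
      np K q ≤ (rt h q).card := by
  classical
  set G : ℚ[X] := h.map (Int.castRingHom ℚ) with hG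
  have hg0 : h ≠ 0 := by rintro rfl; simp at hd
  have hGd : G.natDegree ≠ 0 := by
    rw [hG, natDegree_map_eq_of_injective (Int.castRingHom ℚ).injective_int]
    omega
  haveI : Fact (Irreducible G.factor) := ⟨irreducible_factor G⟩
  have hf0 : G.factor ≠ 0 := (irreducible_factor G).ne_zero
  let K : Type := AdjoinRoot G.factor
  letI : Field K := AdjoinRoot.instField
  haveI : CharZero K := charZero_of_injective_algebraMap (algebraMap ℚ K).injective
  haveI : FiniteDimensional ℚ K := (AdjoinRoot.powerBasis hf0).finite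
  haveI : NumberField K := { to_charZero := inferInstance, to_finiteDimensional := inferInstance }
  let θ : K := AdjoinRoot.root G.factor
  have hθG : eval₂ (AdjoinRoot.of G.factor) (AdjoinRoot.root G.factor) G = 0 := by
    obtain ⟨g, hh⟩ := factor_dvd_of_natDegree_ne_zero hGd
    have h1 : eval₂ (AdjoinRoot.of G.factor) (AdjoinRoot.root G.factor) (G.factor * g) = 0 := by
      rw [eval₂_mul, AdjoinRoot.eval₂_root, zero_mul]
    exact (congrArg (eval₂ (AdjoinRoot.of G.factor) (AdjoinRoot.root G.factor)) hh).trans h1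
  have hθ : aeval θ h = 0 := by
    have h2 : eval₂ ((AdjoinRoot.of G.factor).comp (Int.castRingHom ℚ)) (AdjoinRoot.root G.factor) h = 0 := by
      rw [← eval₂_map]
      exact hθG
    have h3 : (AdjoinRoot.of G.factor).comp (Int.castRingHom ℚ) = algebraMap ℤ K := RingHom.ext_int _ _
    rw [h3] at h2
    exact h2
  have ha0 : h.leadingCoeff ≠ 0 := leadingCoeff_ne_zero.2 hg0
  have hint : IsIntegral ℤ (h.leadingCoeff • θ) := isIntegral_leadingCoeff_smul h θ hθ
  let α : 𝓞 K := ⟨h.leadingCoeff • θ, hint⟩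
  have hα : (algebraMap (𝓞 K) K) α = algebraMap ℤ K h.leadingCoeff * θ := by
    show h.leadingCoeff • θ = _
    rw [Algebra.smul_def]
  have hgen : ∀ b : K, ∃ Q : ℚ[X], aeval ((algebraMap (𝓞 K) K) α) Q = b := by
    intro b
    obtain ⟨Q, hQ⟩ := AdjoinRoot.mk_surjective (g := G.factor) b
    refine ⟨Q.comp (C ((h.leadingCoeff : ℚ))⁻¹ * X), ?_⟩
    rw [aeval_comp]
    have h4 : aeval ((algebraMap (𝓞 K) K) α) (C ((h.leadingCoeff : ℚ))⁻¹ * X) = θ := by
      rw [map_mul, aeval_C, aeval_X, hα, ← mul_assoc]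
      have h5 : (algebraMap ℚ K) ((h.leadingCoeff : ℚ))⁻¹ * (algebraMap ℤ K) h.leadingCoeff = 1 := by
        have h6 : (algebraMap ℤ K) h.leadingCoeff = (h.leadingCoeff : K) := eq_intCast (algebraMap ℤ K) _
        rw [map_inv₀, map_intCast, h6]
        exact inv_mul_cancel₀ (Int.cast_ne_zero.2 ha0)
      rw [h5, one_mul]
    rw [h4, ← hQ]
    exact AdjoinRoot.aeval_eq Q
  obtain ⟨D, hD, hDen⟩ := Ro_den K α hgen
  refine ⟨K, inferInstance, inferInstance, max h.leadingCoeff.natAbs D.natAbs, ?_⟩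
  intro q hq hB
  haveI : Fact q.Prime := ⟨hq⟩
  have hB1 : h.leadingCoeff.natAbs < q := lt_of_le_of_lt (le_max_left _ _) hB
  have hB2 : D.natAbs < q := lt_of_le_of_lt (le_max_right _ _) hB
  let f : (𝓞 K →+* ZMod q) → {r : ℕ // r ∈ rt h q} := fun φ =>
    ⟨((h.leadingCoeff : ZMod q)⁻¹ * φ α).val, by
      unfold rt
      rw [Finset.mem_filter, Finset.mem_range]
      exact ⟨ZMod.val_lt _, Ro_root h K θ hθ α hα q hq hB1 hg0 φ⟩⟩
  have hf : Function.Injective f := by
    intro φ ψ hφψ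
    have h1 : ((h.leadingCoeff : ZMod q)⁻¹ * φ α).val = ((h.leadingCoeff : ZMod q)⁻¹ * ψ α).val :=
      congrArg Subtype.val hφψ
    have h2 := ZMod.val_injective q h1
    have h3 := mul_left_cancel₀ (inv_ne_zero (Ro_ne ha0 hB1)) h2
    exact Ro_inj K α hD hDen q hq hB2 φ ψ h3
  unfold np
  calc Nat.card (𝓞 K →+* ZMod q) ≤ Nat.card {r : ℕ // r ∈ rt h q} := Nat.card_le_card_of_injective f hf
    _ = (rt h q).card := by rw [Nat.card_eq_fintype_card, Fintype.card_coe]

theorem rt_card_le (h : ℤ[X]) (hd : 1 ≤ h.natDegree) : ∃ B : ℕ, ∀ q : ℕ, q.Prime → B < q →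
    (rt h q).card ≤ h.natDegree := by
  classical
  have hg0 : h ≠ 0 := by rintro rfl; simp at hd
  have ha0 : h.leadingCoeff ≠ 0 := leadingCoeff_ne_zero.2 hg0
  refine ⟨h.leadingCoeff.natAbs, ?_⟩
  intro q hq hB
  haveI : Fact q.Prime := ⟨hq⟩
  have hne := Ro_ne ha0 hB
  have hH : h.map (Int.castRingHom (ZMod q)) ≠ 0 := by
    intro h0
    have h1 := congrArg (fun p => Polynomial.coeff p h.natDegree) h0
    simp only [coeff_map, coeff_zero] at h1
    exact hne h1
  have h2 : (rt h q).card ≤ (h.map (Int.castRingHom (ZMod q))).roots.toFinset.card := by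
    apply Finset.card_le_card_of_injOn (fun r : ℕ => (r : ZMod q))
    · intro r hr
      have hr' := Finset.mem_coe.1 hr
      unfold rt at hr'
      rw [Finset.mem_filter] at hr'
      rw [Finset.mem_coe, Multiset.mem_toFinset, mem_roots hH, IsRoot.def, eval_map]
      have h3 := eval₂_at_apply (p := h) (Int.castRingHom (ZMod q)) (r : ℤ)
      simp only [Int.coe_castRingHom, Int.cast_natCast] at h3
      rw [h3]
      exact (ZMod.intCast_zmod_eq_zero_iff_dvd _ _).2 hr'.2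
    · intro r hr r' hr' he
      have hr1 := Finset.mem_coe.1 hr
      have hr2 := Finset.mem_coe.1 hr'
      unfold rt at hr1 hr2
      rw [Finset.mem_filter, Finset.mem_range] at hr1 hr2
      have h3 := congrArg ZMod.val he
      simp only [] at h3
      rw [ZMod.val_natCast, ZMod.val_natCast, Nat.mod_eq_of_lt hr1.1, Nat.mod_eq_of_lt hr2.1] at h3
      exact h3
  calc (rt h q).card ≤ (h.map (Int.castRingHom (ZMod q))).roots.toFinset.card := h2
    _ ≤ Multiset.card (h.map (Int.castRingHom (ZMod q))).roots := Multiset.toFinset_card_le _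
    _ ≤ (h.map (Int.castRingHom (ZMod q))).natDegree := card_roots' _
    _ ≤ h.natDegree := natDegree_map_le

end Pool.Agent.H37.PB
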