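import Pool.Agent.H37.PB.Me
import Pool.Agent.H37.PB.Ro

/-!
PB Wt: existence of weights: `w l = np K l` for `l` prime, `0` otherwise (`np_mert`, `np_le_rt`, `rt_card_le`, `np_le`).
-/

set_option autoImplicit false

namespace Pool.Agent.H37.PB

open Finset Polynomial Pool.Agent.H37.PPC Pool.Agent.H37.PPD Pool.Agent.H24.FD

theorem exists_wt (h : ℤ[X]) (hd : 1 ≤ h.natDegree) : ∃ (B D : ℕ) (C : ℝ) (w : ℕ → ℝ), Wt h B D C w := by
  obtain ⟨K, hK1, hK2, B1, h1⟩ := np_le_rt h hd
  obtain ⟨B2, h2⟩ := rt_card_le h hd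
  obtain ⟨C, h3⟩ := np_mert K
  refine ⟨max B1 B2, max h.natDegree (Module.finrank ℚ K), C, fun l => if l.Prime then (np K l : ℝ) else 0,
    ⟨fun l => ?_, fun l => ?_, fun l hl hB => ?_, fun l hl hB => ?_, fun a b ha hab => ?_⟩⟩
  · show 0 ≤ if l.Prime then (np K l : ℝ) else 0
    split_ifs <;> positivity
  · show (if l.Prime then (np K l : ℝ) else 0) ≤ _
    split_ifs with hl
    · exact_mod_cast (np_le K l hl).trans (le_max_right _ _)
    · positivity
  · show (if l.Prime then (np K l : ℝ) else 0) ≤ _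
    rw [if_pos hl]
    exact_mod_cast h1 l hl (lt_of_le_of_lt (le_max_left _ _) hB)
  · exact (h2 l hl (lt_of_le_of_lt (le_max_right _ _) hB)).trans (le_max_left _ _)
  · have h4 := h3 a b ha hab
    have h5 : ∑ l ∈ pr a b, (if l.Prime then (np K l : ℝ) else 0) / l = ∑ l ∈ pr a b, (np K l : ℝ) / l := by
      refine sum_congr rfl fun l hl => ?_
      rw [if_pos (mem_pr.1 hl).2]
    show |∑ l ∈ pr a b, (if l.Prime then (np K l : ℝ) else 0) / l - (ll b - ll a)| ≤ C
    rw [h5]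
    exact h4

end Pool.Agent.H37.PB
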