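import Pool.Agent.H37.PB.Defs
import Pool.Agent.H24.FD.DegOne

/-!
PB Me: Mertens for the primes of degree one of a number field.

`np_sum` (H24/FD/DegOne.lean): `P(s) = ∑_p np K p p^(-s)` satisfies `|P(s) - log (1/(s-1))| ≤ C0` for `1 < s < 2`.
It suffices to bound `|∑_{l ∈ pr 2 n} np/l - ll n|` for `n ≥ 2` (`pr a b` = difference).  For `n < 8` trivial (`np_le`).
For `n ≥ 8` let `s = 1 + 1/log n`, so `log (1/(s-1)) = ll n`, `x = (s-1) log p`, `x ≤ 1` for `p < n`, `x ≥ 1` for `p ≥ n`.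
Tail: with `s' = 1 + (s-1)/2`: for `p ≥ n`, `p^(-s) ≤ e^(-1/2) p^(-s')`, so
 `(e^(1/2) - 1) ∑_{p ≥ n} np p^(-s) ≤ P(s') - P(s) ≤ log 2 + 2 C0`.   Hence `∑_{p<n} np/p ≥ ∑_{p<n} np p^(-s) ≥ ll n - C`.
Head: with `s'' = 1 + 2(s-1)` (`< 2`): `P(s) - P(s'') = ∑ np p^(-s)(1 - e^(-x)) ≤ C0 + C0 + log 2`; for `0 ≤ x ≤ 1`:
 `1 - e^(-x) ≥ (1 - e^(-1)) x`, and `np/p - np p^(-s) = np p^(-s) (e^x - 1) ≤ (e - 1) x np p^(-s)`.
 So `∑_{p<n} (np/p - np p^(-s)) ≤ C`.
-/

set_option autoImplicit false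

namespace Pool.Agent.H37.PB

open Finset Pool.Agent.H37.PPC Pool.Agent.H37.PPD Pool.Agent.H24.FD NumberField

private noncomputable def Me_g (K : Type) [Field K] (s : ℝ) (p : ℕ) : ℝ :=
  (np K p : ℝ) * (p : ℝ) ^ (-s)

private noncomputable def Me_h (K : Type) [Field K] (n p : ℕ) : ℝ :=
  if p < n then (np K p : ℝ) / p else 0

private theorem Me_T (K : Type) [Field K] (n : ℕ) :
    Summable (fun p : Nat.Primes => Me_h K n p) ∧
      ∑' p : Nat.Primes, Me_h K n p = ∑ l ∈ pr 2 n, (np K l : ℝ) / l := by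
  have h0 : ∀ m ∉ pr 2 n, Set.indicator {p : ℕ | p.Prime} (Me_h K n) m = 0 := by
    intro m hm
    by_cases hp : m.Prime
    · rw [Set.indicator_of_mem (show m ∈ {p : ℕ | p.Prime} from hp), Me_h, if_neg]
      intro hlt
      exact hm (mem_pr.2 ⟨⟨hp.two_le, hlt⟩, hp⟩)
    · exact Set.indicator_of_notMem hp _
  constructor
  · have h1 : Summable (Set.indicator {p : ℕ | p.Prime} (Me_h K n)) :=
      summable_of_ne_finset_zero h0
    exact (summable_subtype_iff_indicator (s := {p : ℕ | p.Prime}) (f := Me_h K n)).2 h1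
  · have h1 := tsum_subtype {p : ℕ | p.Prime} (Me_h K n)
    refine Eq.trans h1 ?_
    rw [tsum_eq_sum h0]
    refine sum_congr rfl fun l hl => ?_
    have hl' := mem_pr.1 hl
    rw [Set.indicator_of_mem (show l ∈ {p : ℕ | p.Prime} from hl'.2), Me_h, if_pos hl'.1.2]

private theorem Me_point (x y : ℝ) (hy : 0 < y) : 1 - Real.exp (-x) = Real.exp (-x) * (Real.exp x - 1) := by
  rw [mul_sub, ← Real.exp_add, neg_add_cancel, Real.exp_zero, mul_one]

/-- the two inequalities for one prime, `s = 1 + σ`, `σ log n = 1` -/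
private theorem Me_one (K : Type) [Field K] (n p : ℕ) (hn : 8 ≤ n) (hp : 2 ≤ p) :
    Me_g K (1 + 1 / Real.log n) p ≤ Me_h K n p +
        2 * (Me_g K (1 + 1 / Real.log n / 2) p - Me_g K (1 + 1 / Real.log n) p) ∧
      Me_h K n p ≤ Me_g K (1 + 1 / Real.log n) p +
        Real.exp 1 * (Me_g K (1 + 1 / Real.log n) p - Me_g K (1 + 2 * (1 / Real.log n)) p) := by
  have hp0 : (0 : ℝ) < p := by
    have : 0 < p := by omega
    exact_mod_cast this
  have hn1 : (1 : ℝ) < n := by
    have : 1 < n := by omega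
    exact_mod_cast this
  have hL : 0 < Real.log n := Real.log_pos hn1
  set σ : ℝ := 1 / Real.log n with hσ
  have hσ0 : 0 < σ := by positivity
  have hlp : 0 ≤ Real.log p := Real.log_nonneg (by exact_mod_cast (by omega : 1 ≤ p))
  set x : ℝ := σ * Real.log p with hx
  have hx0 : 0 ≤ x := by positivity
  have e1 : (p : ℝ) ^ (-(1 + σ)) = Real.exp (-x) / p := by
    rw [show -(1 + σ) = -σ + -1 by ring, Real.rpow_add hp0, Real.rpow_neg_one,
      Real.rpow_def_of_pos hp0, hx, div_eq_mul_inv]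
    congr 2
    ring
  have e2 : (p : ℝ) ^ (-(1 + σ / 2)) = Real.exp (-(x / 2)) / p := by
    rw [show -(1 + σ / 2) = -(σ / 2) + -1 by ring, Real.rpow_add hp0, Real.rpow_neg_one,
      Real.rpow_def_of_pos hp0, hx, div_eq_mul_inv]
    congr 2
    ring
  have e3 : (p : ℝ) ^ (-(1 + 2 * σ)) = Real.exp (-(2 * x)) / p := by
    rw [show -(1 + 2 * σ) = -(2 * σ) + -1 by ring, Real.rpow_add hp0, Real.rpow_neg_one,
      Real.rpow_def_of_pos hp0, hx, div_eq_mul_inv]
    congr 2
    ring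
  have hN : (0 : ℝ) ≤ (np K p : ℝ) / p := by positivity
  have g1 : Me_g K (1 + σ) p = (np K p : ℝ) / p * Real.exp (-x) := by
    rw [Me_g, e1]
    ring
  have g2 : Me_g K (1 + σ / 2) p = (np K p : ℝ) / p * Real.exp (-(x / 2)) := by
    rw [Me_g, e2]
    ring
  have g3 : Me_g K (1 + 2 * σ) p = (np K p : ℝ) / p * Real.exp (-(2 * x)) := by
    rw [Me_g, e3]
    ring
  rw [g1, g2, g3, Me_h]
  set N : ℝ := (np K p : ℝ) / p with hNdef
  -- monotonicity of the exponentials
  have m1 : Real.exp (-x) ≤ 1 := Real.exp_le_one_iff.2 (by linarith)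
  have m2 : Real.exp (-x) ≤ Real.exp (-(x / 2)) := Real.exp_le_exp.2 (by linarith)
  have m3 : Real.exp (-(2 * x)) ≤ Real.exp (-x) := Real.exp_le_exp.2 (by linarith)
  have s1 : Real.exp (-(x / 2)) = Real.exp (-x) * Real.exp (x / 2) := by
    rw [← Real.exp_add]
    congr 1
    ring
  have s2 : Real.exp (-(2 * x)) = Real.exp (-x) * Real.exp (-x) := by
    rw [← Real.exp_add]
    congr 1
    ring
  have hpos : 0 < Real.exp (-x) := Real.exp_pos _
  split_ifs with hlt
  · constructor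
    · have h1 : N * Real.exp (-x) ≤ N := by nlinarith
      have h2 : 0 ≤ N * Real.exp (-(x / 2)) - N * Real.exp (-x) := by nlinarith
      linarith
    · -- `x ≤ 1`
      have hx1 : x ≤ 1 := by
        rw [hx, hσ, one_div, inv_mul_eq_div, div_le_one hL]
        exact Real.log_le_log hp0 (by exact_mod_cast hlt.le)
      have h3 : 1 ≤ Real.exp 1 * Real.exp (-x) := by
        rw [← Real.exp_add]
        exact Real.one_le_exp (by linarith)
      have h4 : 1 - Real.exp (-x) ≤ Real.exp 1 * (Real.exp (-x) - Real.exp (-(2 * x))) := by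
        rw [s2]
        have : Real.exp 1 * (Real.exp (-x) - Real.exp (-x) * Real.exp (-x)) =
            (Real.exp 1 * Real.exp (-x)) * (1 - Real.exp (-x)) := by ring
        rw [this]
        nlinarith
      have h5 := mul_le_mul_of_nonneg_left h4 hN
      nlinarith
  · push Not at hlt
    have hx1 : 1 ≤ x := by
      rw [hx, hσ, one_div, inv_mul_eq_div, one_le_div hL]
      exact Real.log_le_log (by linarith) (by exact_mod_cast hlt)
    constructor
    · have h3 : 3 / 2 ≤ Real.exp (x / 2) := by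
        have := Real.add_one_le_exp (x / 2)
        linarith
      have h4 : Real.exp (-x) ≤ 2 * (Real.exp (-(x / 2)) - Real.exp (-x)) := by
        rw [s1]
        nlinarith
      have h5 := mul_le_mul_of_nonneg_left h4 hN
      nlinarith
    · have h1 : 0 ≤ N * Real.exp (-x) := by positivity
      have h2 : 0 ≤ Real.exp 1 * (N * Real.exp (-x) - N * Real.exp (-(2 * x))) := by
        refine mul_nonneg (Real.exp_pos 1).le ?_
        nlinarith
      linarith

private theorem Me_main (K : Type) [Field K] [NumberField K] : ∃ C : ℝ, ∀ n : ℕ, 8 ≤ n →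
    |∑ l ∈ pr 2 n, (np K l : ℝ) / l - ll n| ≤ C := by
  obtain ⟨C0, hC0⟩ := np_sum K
  refine ⟨C0 + 3 * (Real.log 2 + 2 * C0), fun n hn => ?_⟩
  have hn1 : (1 : ℝ) < n := by
    have : 1 < n := by omega
    exact_mod_cast this
  have hL2 : 2 < Real.log n := by
    have h1 : Real.log 8 ≤ Real.log n := Real.log_le_log (by norm_num) (by exact_mod_cast hn)
    have h2 : Real.log 8 = 3 * Real.log 2 := by
      rw [show (8 : ℝ) = 2 ^ (3 : ℕ) by norm_num, Real.log_pow]
      norm_num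
    have h3 := Real.log_two_gt_d9
    linarith
  have hL : 0 < Real.log n := by linarith
  set σ : ℝ := 1 / Real.log n with hσ
  have hσ0 : 0 < σ := by positivity
  have hσ1 : σ < 1 / 2 := by
    rw [hσ]
    exact one_div_lt_one_div_of_lt (by norm_num) hL2
  have hll : Real.log (1 / σ) = ll n := by
    rw [hσ, one_div_one_div, ll]
  have hs : ∀ t : ℝ, 0 < t → t < 1 → |∑' p : Nat.Primes, Me_g K (1 + t) p - Real.log (1 / t)| ≤ C0 := by
    intro t ht0 ht1
    have h := hC0 (1 + t) (by linarith) (by linarith)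
    rw [add_sub_cancel_left] at h
    exact h
  have hsum : ∀ t : ℝ, 0 < t → Summable (fun p : Nat.Primes => Me_g K (1 + t) p) := by
    intro t ht
    exact np_summable K (by linarith)
  obtain ⟨hTs, hT⟩ := Me_T K n
  have k1 := hs σ hσ0 (by linarith)
  have k2 := hs (σ / 2) (by linarith) (by linarith)
  have k3 := hs (2 * σ) (by linarith) (by linarith)
  have l2 : Real.log (1 / (σ / 2)) = Real.log (1 / σ) + Real.log 2 := by
    rw [← Real.log_mul (by positivity) (by norm_num)]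
    congr 1
    field_simp
  have l3 : Real.log (1 / (2 * σ)) = Real.log (1 / σ) - Real.log 2 := by
    rw [← Real.log_div (by positivity) (by norm_num)]
    congr 1
    field_simp
  rw [l2] at k2
  rw [l3] at k3
  rw [hll] at k1 k2 k3
  rw [abs_le] at k1 k2 k3
  have S1 := hsum σ hσ0
  have S2 := hsum (σ / 2) (by linarith)
  have S3 := hsum (2 * σ) (by linarith)
  have i1 : ∑' p : Nat.Primes, Me_g K (1 + σ) p ≤ ∑' p : Nat.Primes, Me_h K n p +
      2 * (∑' p : Nat.Primes, Me_g K (1 + σ / 2) p - ∑' p : Nat.Primes, Me_g K (1 + σ) p) := by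
    rw [← S2.tsum_sub S1, ← tsum_mul_left, ← hTs.tsum_add ((S2.sub S1).mul_left 2)]
    exact S1.tsum_le_tsum (fun p => (Me_one K n p hn p.2.two_le).1)
      (hTs.add ((S2.sub S1).mul_left 2))
  have i2 : ∑' p : Nat.Primes, Me_h K n p ≤ ∑' p : Nat.Primes, Me_g K (1 + σ) p +
      Real.exp 1 * (∑' p : Nat.Primes, Me_g K (1 + σ) p -
        ∑' p : Nat.Primes, Me_g K (1 + 2 * σ) p) := by
    rw [← S1.tsum_sub S3, ← tsum_mul_left, ← S1.tsum_add ((S1.sub S3).mul_left _)]
    exact hTs.tsum_le_tsum (fun p => (Me_one K n p hn p.2.two_le).2)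
      (S1.add ((S1.sub S3).mul_left _))
  rw [hT] at i1 i2
  have he : Real.exp 1 ≤ 3 := by
    have := Real.exp_one_lt_d9
    linarith
  have he0 := Real.exp_pos 1
  set P1 := ∑' p : Nat.Primes, Me_g K (1 + σ) p
  set P2 := ∑' p : Nat.Primes, Me_g K (1 + σ / 2) p
  set P3 := ∑' p : Nat.Primes, Me_g K (1 + 2 * σ) p
  have hD : P1 - P3 ≤ Real.log 2 + 2 * C0 := by linarith
  have hC : 0 ≤ Real.log 2 + 2 * C0 := by
    have := Real.log_two_gt_d9
    linarith [k1.1, k1.2]
  have hE : Real.exp 1 * (P1 - P3) ≤ 3 * (Real.log 2 + 2 * C0) := by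
    calc Real.exp 1 * (P1 - P3) ≤ Real.exp 1 * (Real.log 2 + 2 * C0) :=
          mul_le_mul_of_nonneg_left hD he0.le
      _ ≤ _ := mul_le_mul_of_nonneg_right he hC
  rw [abs_le]
  constructor <;> linarith

theorem np_mert (K : Type) [Field K] [NumberField K] : ∃ C : ℝ, ∀ a b : ℕ, 2 ≤ a → a ≤ b →
    |∑ l ∈ pr a b, (np K l : ℝ) / l - (ll b - ll a)| ≤ C := by
  obtain ⟨C1, h1⟩ := Me_main K
  set C2 : ℝ := ∑ n ∈ range 8, |∑ l ∈ pr 2 n, (np K l : ℝ) / l - ll n| with hC2
  have h2 : ∀ n : ℕ, |∑ l ∈ pr 2 n, (np K l : ℝ) / l - ll n| ≤ |C1| + C2 := by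
    intro n
    have hC20 : 0 ≤ C2 := sum_nonneg fun _ _ => abs_nonneg _
    rcases Nat.lt_or_ge n 8 with hn | hn
    · have := single_le_sum (f := fun n => |∑ l ∈ pr 2 n, (np K l : ℝ) / l - ll n|)
        (fun _ _ => abs_nonneg _) (mem_range.2 hn)
      have h3 := abs_nonneg C1
      linarith
    · have := h1 n hn
      have h3 := le_abs_self C1
      linarith
  refine ⟨2 * (|C1| + C2), fun a b ha hab => ?_⟩
  have h3 : ∑ l ∈ pr a b, (np K l : ℝ) / l =
      ∑ l ∈ pr 2 b, (np K l : ℝ) / l - ∑ l ∈ pr 2 a, (np K l : ℝ) / l := by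
    have h4 : pr 2 b = pr 2 a ∪ pr a b := by
      ext l
      rw [mem_union, mem_pr, mem_pr, mem_pr]
      constructor
      · rintro ⟨⟨h5, h6⟩, h7⟩
        rcases Nat.lt_or_ge l a with h8 | h8
        · exact Or.inl ⟨⟨h5, h8⟩, h7⟩
        · exact Or.inr ⟨⟨h8, h6⟩, h7⟩
      · rintro (⟨⟨h5, h6⟩, h7⟩ | ⟨⟨h5, h6⟩, h7⟩)
        · exact ⟨⟨h5, by omega⟩, h7⟩
        · exact ⟨⟨by omega, h6⟩, h7⟩
    have h5 : Disjoint (pr 2 a) (pr a b) := by
      rw [Finset.disjoint_left]
      intro l hl hl'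
      rw [mem_pr] at hl hl'
      omega
    rw [h4, sum_union h5]
    ring
  rw [h3]
  have ka := abs_le.1 (h2 a)
  have kb := abs_le.1 (h2 b)
  rw [abs_le]
  constructor <;> linarith [ka.1, ka.2, kb.1, kb.2]

end Pool.Agent.H37.PB
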