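import Pool.Agent.H37.PB.Sv

/-!
PB Cl: the sieve for sets with prescribed residues, and with two prescribed primes.
-/

set_option autoImplicit false

namespace Pool.Agent.H37.PB

open Finset Polynomial Pool.Agent.H37.PPC Pool.Agent.H37.PPD

theorem Wt.mono {h : ℤ[X]} {B D B' D' : ℕ} {C C' : ℝ} {w : ℕ → ℝ} (hw : Wt h B D C w) (hB : B ≤ B')
    (hD : D ≤ D') (hC : C ≤ C') : Wt h B' D' C' w where
  nn := hw.nn
  le := fun l => (hw.le l).trans (by exact_mod_cast hD)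
  lo := fun l hl hB' => hw.lo l hl (lt_of_le_of_lt hB hB')
  up := fun l hl hB' => (hw.up l hl (lt_of_le_of_lt hB hB')).trans hD
  me := fun a b ha hab => (hw.me a b ha hab).trans hC

theorem pr_split {a b c : ℕ} (h1 : a ≤ b) (h2 : b ≤ c) (f : ℕ → ℝ) :
    ∑ p ∈ pr a c, f p = ∑ p ∈ pr a b, f p + ∑ p ∈ pr b c, f p := by
  rw [← sum_union]
  · congr 1
    ext p
    rw [mem_union, mem_pr, mem_pr, mem_pr]
    constructor
    · rintro ⟨⟨h1, h2⟩, h3⟩
      by_cases h : p < b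
      · exact Or.inl ⟨⟨h1, h⟩, h3⟩
      · exact Or.inr ⟨⟨by omega, h2⟩, h3⟩
    · rintro (⟨⟨h1, h2⟩, h3⟩ | ⟨⟨h1, h2⟩, h3⟩)
      · exact ⟨⟨h1, by omega⟩, h3⟩
      · exact ⟨⟨by omega, h2⟩, h3⟩
  · rw [disjoint_left]
    intro p hp hq
    rw [mem_pr] at hp hq
    omega

theorem sum_logp : ∃ K : ℝ, 0 < K ∧ ∀ u : ℕ, 2 ≤ u →
    ∑ p ∈ pr 2 (u + 1), Real.log p / p ≤ K * Real.log u := by
  obtain ⟨C, hC, hM⟩ := mertens_two
  refine ⟨2 * (C + 1), by positivity, ?_⟩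
  intro u
  induction u using Nat.strong_induction_on with
  | _ u ih =>
    intro hu
    have hlp : ∀ k : ℕ, 2 ≤ k → 0 < Real.log k := fun k hk =>
      Real.log_pos (by exact_mod_cast (by omega : 1 < k))
    obtain ⟨s, hs⟩ : ∃ s : ℕ, s = Nat.sqrt u := ⟨_, rfl⟩
    have hs1 : 1 ≤ s := by
      rw [hs, Nat.le_sqrt]
      omega
    have hsu : s < u := by rw [hs]; exact Nat.sqrt_lt_self (by omega)
    have hlu : u < (s + 1) * (s + 1) := by rw [hs]; exact Nat.sqrt_lt.1 (Nat.lt_succ_self _)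
    have hss : s * s ≤ u := by rw [hs]; exact Nat.sqrt_le u
    have hlu0 := hlp u hu
    have hbig : ∑ p ∈ pr (s + 1) (u + 1), Real.log p / p ≤ (C + 1) * Real.log u := by
      have h1 : ∑ p ∈ pr (s + 1) (u + 1), Real.log p / p ≤
          ∑ p ∈ pr (s + 1) (u + 1), Real.log u * ((1 : ℝ) / p) := by
        apply sum_le_sum
        intro p hp
        rw [mem_pr] at hp
        have hp0 : (0 : ℝ) < p := by exact_mod_cast hp.2.pos
        rw [div_eq_mul_one_div]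
        apply mul_le_mul_of_nonneg_right _ (by positivity)
        apply Real.log_le_log hp0
        exact_mod_cast (by omega : p ≤ u)
      rw [← mul_sum] at h1
      have h2 := hM (s + 1) (u + 1) (by omega) (by omega)
      rw [abs_le] at h2
      have h3 : Real.log (Real.log ((u + 1 : ℕ) : ℝ)) ≤ Real.log 2 + Real.log (Real.log ((s + 1 : ℕ) : ℝ)) := by
        have p1 := hlp (s + 1) (by omega)
        have p2 := hlp (u + 1) (by omega)
        rw [← Real.log_mul (by norm_num) p1.ne']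
        apply Real.log_le_log p2
        have : (2 : ℝ) * Real.log ((s + 1 : ℕ) : ℝ) = Real.log (((s + 1 : ℕ) : ℝ) ^ 2) := by
          rw [Real.log_pow]; norm_num
        rw [this]
        apply Real.log_le_log (by positivity)
        have : u + 1 ≤ (s + 1) ^ 2 := by nlinarith
        exact_mod_cast this
      have h4 : Real.log 2 ≤ 1 := by have := Real.log_two_lt_d9; linarith
      nlinarith [h2.1, h2.2]
    have hsplit := pr_split (a := 2) (b := s + 1) (c := u + 1) (by omega) (by omega) (fun p : ℕ => Real.log p / p)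
    rw [hsplit]
    rcases Nat.lt_or_ge s 2 with h | h
    · have : s = 1 := by omega
      have e : pr 2 (s + 1) = ∅ := by rw [this]; simp [pr]
      rw [e, sum_empty, zero_add]
      nlinarith
    · have hi := ih s hsu h
      have h2 : 2 * Real.log s ≤ Real.log u := by
        have : (2 : ℝ) * Real.log s = Real.log ((s : ℝ) ^ 2) := by
          rw [Real.log_pow]; norm_num
        rw [this]
        have h0 : (0 : ℝ) < s := by exact_mod_cast (by omega : 0 < s)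
        apply Real.log_le_log (by positivity)
        exact_mod_cast (by nlinarith : s ^ 2 ≤ u)
      nlinarith

section

variable {h1 h2 : ℤ[X]} {B D : ℕ} {C : ℝ} {w1 w2 : ℕ → ℝ}

theorem res_count (hc : ∀ l : ℕ, l.Prime → ∀ m : ℤ, (l : ℤ) ∣ h1.eval m → ¬ (l : ℤ) ∣ h2.eval m)
    (hw1 : Wt h1 B D C w1) (hw2 : Wt h2 B D C w2) (hB : 2 * D ≤ B) (hB1 : 1 ≤ B) :
    ∃ K : ℝ, 0 < K ∧ ∃ s : ℕ, 0 < s ∧ ∀ (Y y d : ℕ) (M : ℤ), 2 ≤ y → 0 < d → d * y ^ s ≤ Y →
    ∀ Z1 Z2 : Finset ℕ, Z1 ⊆ pr (B + 1) (y + 1) → Z2 ⊆ pr (B + 1) (y + 1) →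
    (∀ l ∈ Z1 ∪ Z2, ¬ l ∣ d) → ∀ (R : Finset ℕ) (S : Finset ℤ),
    (∀ m ∈ S, M < m ∧ m ≤ M + Y ∧ (m % d).toNat ∈ R ∧ (∀ l ∈ Z1, ¬ (l : ℤ) ∣ h1.eval m) ∧
      (∀ l ∈ Z2, ¬ (l : ℤ) ∣ h2.eval m)) →
    (S.card : ℝ) ≤ K * R.card * (Y / d) * Real.exp (-(∑ l ∈ Z1, w1 l / l) - ∑ l ∈ Z2, w2 l / l) := by
  classical
  obtain ⟨K, hK, s, hs, H⟩ := sieve_cl (2 * D)
  refine ⟨K, hK, s, hs, ?_⟩
  intro Y y d M hy hd hdY Z1 Z2 hZ1 hZ2 hZd R S hS
  have hsub : ∀ Z : Finset ℕ, Z ⊆ pr (B + 1) (y + 1) → Z ⊆ pr 2 (y + 1) := by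
    intro Z hZ l hl
    have h := mem_pr.1 (hZ hl)
    exact mem_pr.2 ⟨⟨h.2.two_le, h.1.2⟩, h.2⟩
  have hexp : Real.exp (-(∑ l ∈ Z1, ((rt h1 l).card : ℝ) / l) - ∑ l ∈ Z2, ((rt h2 l).card : ℝ) / l) ≤
      Real.exp (-(∑ l ∈ Z1, w1 l / l) - ∑ l ∈ Z2, w2 l / l) := by
    apply Real.exp_le_exp.2
    have e1 : ∑ l ∈ Z1, w1 l / l ≤ ∑ l ∈ Z1, ((rt h1 l).card : ℝ) / l := by
      refine sum_le_sum fun l hl => ?_
      have h := mem_pr.1 (hZ1 hl)
      exact div_le_div_of_nonneg_right (hw1.lo l h.2 (by omega)) (Nat.cast_nonneg _)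
    have e2 : ∑ l ∈ Z2, w2 l / l ≤ ∑ l ∈ Z2, ((rt h2 l).card : ℝ) / l := by
      refine sum_le_sum fun l hl => ?_
      have h := mem_pr.1 (hZ2 hl)
      exact div_le_div_of_nonneg_right (hw2.lo l h.2 (by omega)) (Nat.cast_nonneg _)
    linarith
  have hcls : ∀ c ∈ R, ((S.filter fun m : ℤ => (m % d).toNat = c).card : ℝ) ≤
      K * (Y / d) * Real.exp (-(∑ l ∈ Z1, w1 l / l) - ∑ l ∈ Z2, w2 l / l) := by
    intro c _
    have h := H h1 h2 hc Y y d M c hy hd hdY Z1 Z2 (hsub _ hZ1) (hsub _ hZ2) (by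
      intro l hl
      have h3 : l ∈ pr (B + 1) (y + 1) := by
        rcases mem_union.1 hl with h | h
        · exact hZ1 h
        · exact hZ2 h
      have h4 := mem_pr.1 h3
      refine ⟨by omega, hZd l hl, ?_⟩
      have a1 := hw1.up l h4.2 (by omega)
      have a2 := hw2.up l h4.2 (by omega)
      omega) (S.filter fun m : ℤ => (m % d).toNat = c) (by
      intro m hm
      rw [mem_filter] at hm
      obtain ⟨a1, a2, a3, a4, a5⟩ := hS m hm.1
      refine ⟨a1, a2, ?_, a4, a5⟩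
      have h5 : (0 : ℤ) ≤ m % d := Int.emod_nonneg m (by exact_mod_cast hd.ne')
      have h6 : (c : ℤ) = m % d := by
        rw [← hm.2, Int.toNat_of_nonneg h5]
      rw [h6]
      exact Int.dvd_self_sub_emod)
    refine h.trans ?_
    exact mul_le_mul_of_nonneg_left hexp (by positivity)
  have hcov : S ⊆ R.biUnion fun c => S.filter fun m : ℤ => (m % d).toNat = c := by
    intro m hm
    rw [mem_biUnion]
    exact ⟨_, (hS m hm).2.2.1, mem_filter.2 ⟨hm, rfl⟩⟩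
  have h3 : (S.card : ℝ) ≤ ∑ c ∈ R, ((S.filter fun m : ℤ => (m % d).toNat = c).card : ℝ) := by
    have := (card_le_card hcov).trans card_biUnion_le
    exact_mod_cast this
  refine h3.trans ((sum_le_sum hcls).trans (le_of_eq ?_))
  rw [sum_const, nsmul_eq_mul]
  ring

theorem pair_count (hc : ∀ l : ℕ, l.Prime → ∀ m : ℤ, (l : ℤ) ∣ h1.eval m → ¬ (l : ℤ) ∣ h2.eval m)
    (hw1 : Wt h1 B D C w1) (hw2 : Wt h2 B D C w2) (hB : 2 * D ≤ B) (hB1 : 1 ≤ B) :
    ∃ K : ℝ, 0 < K ∧ ∃ s : ℕ, 0 < s ∧ ∀ (Y y : ℕ) (M : ℤ), 2 ≤ y → y ^ (s + 2) ≤ Y →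
    ∀ p q : ℕ, p ∈ pr (B + 1) (y + 1) → q ∈ pr (B + 1) (y + 1) → p ≠ q →
    ∀ Z1 Z2 : Finset ℕ, Z1 ⊆ pr (B + 1) (y + 1) → Z2 ⊆ pr (B + 1) (y + 1) → ∀ S : Finset ℤ,
    (∀ m ∈ S, M < m ∧ m ≤ M + Y ∧ (p : ℤ) ∣ h1.eval m ∧ (q : ℤ) ∣ h2.eval m ∧
      (∀ l ∈ Z1, ¬ (l : ℤ) ∣ h1.eval m) ∧ (∀ l ∈ Z2, ¬ (l : ℤ) ∣ h2.eval m)) →
    (S.card : ℝ) ≤ K * (Y / (p * q)) * Real.exp (-(∑ l ∈ Z1, w1 l / l) - ∑ l ∈ Z2, w2 l / l) := by
  classical
  obtain ⟨K, hK, s, hs, H⟩ := res_count hc hw1 hw2 hB hB1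
  refine ⟨K * (D * D) * Real.exp (4 * D) + 1, by positivity, s, hs, ?_⟩
  intro Y y M hy hyY p q hp hq hpq Z1 Z2 hZ1 hZ2 S hS
  have hp' := mem_pr.1 hp
  have hq' := mem_pr.1 hq
  have hpos : 0 < p * q := Nat.mul_pos hp'.2.pos hq'.2.pos
  have hdY : p * q * y ^ s ≤ Y := by
    have h3 : p * q ≤ y * y := Nat.mul_le_mul (by omega) (by omega)
    calc p * q * y ^ s ≤ y * y * y ^ s := Nat.mul_le_mul_right _ h3
      _ = y ^ (s + 2) := by ring
      _ ≤ Y := hyY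
  set R : Finset ℕ := (range (p * q)).filter fun c : ℕ => (p : ℤ) ∣ h1.eval (c : ℤ) ∧ (q : ℤ) ∣ h2.eval (c : ℤ) with hR
  have hpc : Nat.Coprime p q := (Nat.coprime_primes hp'.2 hq'.2).2 hpq
  have hdvd : ∀ (g : ℤ[X]) (a b n : ℤ), n ∣ a - b → (n ∣ g.eval a ↔ n ∣ g.eval b) := by
    intro g a b n h
    have h4 : n ∣ g.eval a - g.eval b := h.trans (Polynomial.sub_dvd_eval_sub a b g)
    exact (Int.dvd_iff_dvd_of_dvd_sub h4)
  have hRc : R.card ≤ D * D := by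
    have h3 : R.card ≤ ((rt h1 p) ×ˢ (rt h2 q)).card := by
      refine card_le_card_of_injOn (fun c => (c % p, c % q)) ?_ ?_
      · intro c hc'
        rw [hR, coe_filter, Set.mem_ofPred_eq, mem_range] at hc'
        rw [coe_product, Set.mem_prod, mem_coe, mem_coe]
        constructor
        · rw [rt, mem_filter, mem_range]
          refine ⟨Nat.mod_lt _ hp'.2.pos, ?_⟩
          refine (hdvd h1 _ c p ?_).2 hc'.2.1
          push_cast
          exact dvd_sub_comm.1 Int.dvd_self_sub_emod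
        · rw [rt, mem_filter, mem_range]
          refine ⟨Nat.mod_lt _ hq'.2.pos, ?_⟩
          refine (hdvd h2 _ c q ?_).2 hc'.2.2
          push_cast
          exact dvd_sub_comm.1 Int.dvd_self_sub_emod
      · intro c hc' c' hc'' he
        rw [hR, coe_filter, Set.mem_ofPred_eq, mem_range] at hc' hc''
        have he1 : c % p = c' % p := congrArg Prod.fst he
        have he2 : c % q = c' % q := congrArg Prod.snd he
        have h5 : c ≡ c' [MOD p * q] := (Nat.modEq_and_modEq_iff_modEq_mul hpc).1 ⟨he1, he2⟩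
        exact Nat.ModEq.eq_of_lt_of_lt h5 hc'.1 hc''.1
    rw [card_product] at h3
    exact h3.trans (Nat.mul_le_mul (hw1.up p hp'.2 (by omega)) (hw2.up q hq'.2 (by omega)))
  have hmain := H Y y (p * q) M hy hpos hdY (Z1 \ {p, q}) (Z2 \ {p, q}) (sdiff_subset.trans hZ1)
    (sdiff_subset.trans hZ2) (by
      intro l hl hd
      have h3 : l ∈ pr (B + 1) (y + 1) ∧ l ∉ ({p, q} : Finset ℕ) := by
        rcases mem_union.1 hl with h | h
        · exact ⟨hZ1 (mem_sdiff.1 h).1, (mem_sdiff.1 h).2⟩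
        · exact ⟨hZ2 (mem_sdiff.1 h).1, (mem_sdiff.1 h).2⟩
      have h4 := (mem_pr.1 h3.1).2
      apply h3.2
      rw [mem_insert, mem_singleton]
      rcases (Nat.Prime.dvd_mul h4).1 hd with h5 | h5
      · exact Or.inl ((Nat.prime_dvd_prime_iff_eq h4 hp'.2).1 h5)
      · exact Or.inr ((Nat.prime_dvd_prime_iff_eq h4 hq'.2).1 h5)) R S (by
      intro m hm
      obtain ⟨a1, a2, a3, a4, a5, a6⟩ := hS m hm
      refine ⟨a1, a2, ?_, fun l hl => a5 l (mem_sdiff.1 hl).1, fun l hl => a6 l (mem_sdiff.1 hl).1⟩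
      have h5 : (0 : ℤ) ≤ m % ((p * q : ℕ) : ℤ) := Int.emod_nonneg m (by exact_mod_cast hpos.ne')
      have h6 : m % ((p * q : ℕ) : ℤ) < ((p * q : ℕ) : ℤ) := Int.emod_lt_of_pos m (by exact_mod_cast hpos)
      have h7 : ((p * q : ℕ) : ℤ) ∣ m - m % ((p * q : ℕ) : ℤ) := Int.dvd_self_sub_emod
      rw [hR, mem_filter, mem_range, Int.toNat_of_nonneg h5]
      refine ⟨by omega, ?_, ?_⟩
      · refine (hdvd h1 m _ p ?_).1 a3
        exact (Dvd.intro (q : ℤ) (by push_cast; ring)).trans h7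
      · refine (hdvd h2 m _ q ?_).1 a4
        exact (Dvd.intro_left (p : ℤ) (by push_cast; ring)).trans h7)
  have hlose : ∀ (Z : Finset ℕ) (w : ℕ → ℝ), Z ⊆ pr (B + 1) (y + 1) → (∀ l, 0 ≤ w l) → (∀ l, w l ≤ D) →
      ∑ l ∈ Z, w l / l - 2 * D ≤ ∑ l ∈ Z \ {p, q}, w l / l := by
    intro Z w hZ h0 hD
    have h3 : Z ⊆ (Z \ {p, q}) ∪ {p, q} := by
      intro l hl
      rw [mem_union, mem_sdiff]
      by_cases h : l ∈ ({p, q} : Finset ℕ)
      · exact Or.inr h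
      · exact Or.inl ⟨hl, h⟩
    have hn : ∀ l, 0 ≤ w l / l := fun l => div_nonneg (h0 l) (Nat.cast_nonneg _)
    have h4 := sum_le_sum_of_subset_of_nonneg h3 (f := fun l : ℕ => w l / l) (fun l _ _ => hn l)
    rw [sum_union sdiff_disjoint] at h4
    have h5 : ∑ l ∈ ({p, q} : Finset ℕ), w l / l ≤ 2 * D := by
      have h6 : ∀ l ∈ ({p, q} : Finset ℕ), w l / l ≤ D := by
        intro l hl
        have hl1 : 1 ≤ l := by
          rw [mem_insert, mem_singleton] at hl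
          rcases hl with rfl | rfl
          · exact hp'.2.one_lt.le
          · exact hq'.2.one_lt.le
        have hl1' : (1 : ℝ) ≤ l := by exact_mod_cast hl1
        rw [div_le_iff₀ (by linarith)]
        have := hD l
        have h7 : (0 : ℝ) ≤ D := (h0 l).trans this
        nlinarith
      have h7 := sum_le_sum h6
      rw [sum_const, nsmul_eq_mul] at h7
      have h8 : (({p, q} : Finset ℕ).card : ℝ) ≤ 2 := by exact_mod_cast card_le_two
      have h9 : (0 : ℝ) ≤ D := Nat.cast_nonneg _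
      nlinarith
    linarith
  have b1 := hlose Z1 w1 hZ1 hw1.nn hw1.le
  have b2 := hlose Z2 w2 hZ2 hw2.nn hw2.le
  have hE : Real.exp (-(∑ l ∈ Z1 \ {p, q}, w1 l / l) - ∑ l ∈ Z2 \ {p, q}, w2 l / l) ≤
      Real.exp (4 * D) * Real.exp (-(∑ l ∈ Z1, w1 l / l) - ∑ l ∈ Z2, w2 l / l) := by
    rw [← Real.exp_add]
    exact Real.exp_le_exp.2 (by linarith)
  have hRc' : (R.card : ℝ) ≤ D * D := by exact_mod_cast hRc
  have hYp : (0 : ℝ) ≤ (Y : ℝ) / (p * q) := by positivity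
  have hx := (Real.exp_pos (-(∑ l ∈ Z1, w1 l / l) - ∑ l ∈ Z2, w2 l / l)).le
  push_cast at hmain
  calc (S.card : ℝ) ≤ K * R.card * (Y / (p * q)) * Real.exp (-(∑ l ∈ Z1 \ {p, q}, w1 l / l)
        - ∑ l ∈ Z2 \ {p, q}, w2 l / l) := hmain
    _ ≤ K * (D * D) * (Y / (p * q)) * (Real.exp (4 * D) * Real.exp (-(∑ l ∈ Z1, w1 l / l)
        - ∑ l ∈ Z2, w2 l / l)) := by
        apply mul_le_mul _ hE (Real.exp_pos _).le (by positivity)
        apply mul_le_mul_of_nonneg_right _ hYp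
        exact mul_le_mul_of_nonneg_left hRc' hK.le
    _ = (K * (D * D) * Real.exp (4 * D)) * ((Y / (p * q)) * Real.exp (-(∑ l ∈ Z1, w1 l / l)
        - ∑ l ∈ Z2, w2 l / l)) := by ring
    _ ≤ (K * (D * D) * Real.exp (4 * D) + 1) * ((Y / (p * q)) * Real.exp (-(∑ l ∈ Z1, w1 l / l)
        - ∑ l ∈ Z2, w2 l / l)) := by
        apply mul_le_mul_of_nonneg_right _ (by positivity)
        linarith
    _ = _ := by ring

end

end Pool.Agent.H37.PB
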