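import Pool.Agent.H37.PB.Defs

/-!
PB Ex: the exceptional integers are rare.

Group by `i = Nat.log 2 m` (`2^i ≤ m < 2^(i+1)`; `i ≥ 4` by `4 * 2^k ≤ i`).  For each `i`, the number of exceptional `m` is at most
 `∑_{k : 4 2^k ≤ i} ∑_{m ≤ 2^(i+1)} (Fx χ w i k m)²`.  `second_moment` (PPD/MO, applied to `χ' l m = w l χ l m / D` on
 `I = pr (i^4) (2^(2^k))`, or to `D = 0` trivially) gives
 `≤ D² (2^(i+1) ∑_{l ≥ i^4} 1/l² + 4 |I|²) ≤ D² (4 · 2^i/(i^4 - 1) + 4 · 2^(i/2))`, `|I| ≤ 2^(2^k) ≤ 2^(i/4)`.  At most `i` values of `k`.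
 Each such `m` has `log m/m ≤ (i+1)/2^i`.  The sum over `i` of `i (i+1) D² (8/i^4 + 4 · 2^(-i/2))` converges.
-/

set_option autoImplicit false

namespace Pool.Agent.H37.PB

open Finset Pool.Agent.H37.PPC Pool.Agent.H37.PPD

private theorem exc_moment (χ : ℕ → ℕ → ℝ) (w : ℕ → ℝ) (D : ℕ) (hw0 : ∀ l, 0 ≤ w l)
    (hwD : ∀ l, w l ≤ D) (h1 : ∀ l m, |χ l m| ≤ 1)
    (h2 : ∀ l l' N : ℕ, l.Prime → l'.Prime → 2 < l → 2 < l' → l ≠ l' →
      |∑ m ∈ Icc 1 N, χ l m * χ l' m| ≤ 4 * l * l') (i k : ℕ) (hk : 4 * 2 ^ k ≤ i) :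
    ∑ m ∈ Icc 1 (2 ^ (i + 1)), (Fx χ w i k m) ^ 2
      ≤ ((D : ℝ) + 1) ^ 2 * (2 ^ (i + 1) * (2 / (i : ℝ) ^ 4) + 4 * (√2) ^ i) := by
  have hD : (0 : ℝ) < (D : ℝ) + 1 := by positivity
  have hi : 4 ≤ i := le_trans (by have := Nat.one_le_two_pow (n := k); omega) hk
  have hi4 : 256 ≤ i ^ 4 := by
    calc 256 = 4 ^ 4 := by norm_num
      _ ≤ i ^ 4 := Nat.pow_le_pow_left hi 4
  set I : Finset ℕ := pr (i ^ 4) (2 ^ 2 ^ k) with hIdef
  have hmem : ∀ l ∈ I, (i ^ 4 ≤ l ∧ l < 2 ^ 2 ^ k) ∧ l.Prime := fun l hl => mem_pr.1 hl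
  have e1 : ∀ m, Fx χ w i k m = ((D : ℝ) + 1) * ∑ l ∈ I, (w l * χ l m / ((D : ℝ) + 1)) / l := by
    intro m
    unfold Fx
    rw [mul_sum]
    refine sum_congr rfl fun l _ => ?_
    field_simp
  have e2 := second_moment I (fun l m => w l * χ l m / ((D : ℝ) + 1)) (2 ^ (i + 1))
    (fun l hl => (hmem l hl).2.one_lt.le) (by
      intro l _ m
      rw [abs_div, abs_of_pos hD, div_le_one hD, abs_mul, abs_of_nonneg (hw0 l)]
      calc w l * |χ l m| ≤ D * 1 := mul_le_mul (hwD l) (h1 l m) (abs_nonneg _) (Nat.cast_nonneg _)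
        _ ≤ (D : ℝ) + 1 := by linarith) (by
      intro l hl l' hl' hne
      have e3 : ∑ m ∈ Icc 1 (2 ^ (i + 1)), (w l * χ l m / ((D : ℝ) + 1)) * (w l' * χ l' m / ((D : ℝ) + 1))
          = (w l / ((D : ℝ) + 1)) * (w l' / ((D : ℝ) + 1)) * ∑ m ∈ Icc 1 (2 ^ (i + 1)), χ l m * χ l' m := by
        rw [mul_sum]
        refine sum_congr rfl fun m _ => ?_
        field_simp
      have q : ∀ l, |w l / ((D : ℝ) + 1)| ≤ 1 := by
        intro l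
        rw [abs_div, abs_of_pos hD, div_le_one hD, abs_of_nonneg (hw0 l)]
        linarith [hwD l]
      show |∑ m ∈ Icc 1 (2 ^ (i + 1)), (w l * χ l m / ((D : ℝ) + 1)) * (w l' * χ l' m / ((D : ℝ) + 1))| ≤ _
      rw [e3, abs_mul, abs_mul]
      have e4 := h2 l l' (2 ^ (i + 1)) (hmem l hl).2 (hmem l' hl').2
        (by have := (hmem l hl).1.1; omega) (by have := (hmem l' hl').1.1; omega) hne
      calc |w l / ((D : ℝ) + 1)| * |w l' / ((D : ℝ) + 1)| * |∑ m ∈ Icc 1 (2 ^ (i + 1)), χ l m * χ l' m|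
          ≤ 1 * 1 * (4 * l * l') :=
            mul_le_mul (mul_le_mul (q l) (q l') (abs_nonneg _) zero_le_one) e4 (abs_nonneg _)
              (by norm_num)
        _ = 4 * l * l' := by ring)
  have e5 : ∑ m ∈ Icc 1 (2 ^ (i + 1)), (Fx χ w i k m) ^ 2
      = ((D : ℝ) + 1) ^ 2 * ∑ m ∈ Icc 1 (2 ^ (i + 1)),
        (∑ l ∈ I, (w l * χ l m / ((D : ℝ) + 1)) / l) ^ 2 := by
    rw [mul_sum]
    refine sum_congr rfl fun m _ => ?_
    rw [e1 m, mul_pow]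
  rw [e5]
  refine mul_le_mul_of_nonneg_left (e2.trans ?_) (by positivity)
  have e6 : ∑ l ∈ I, (1 : ℝ) / (l : ℝ) ^ 2 ≤ 2 / (i : ℝ) ^ 4 := by
    obtain ⟨J, hJ⟩ : ∃ J : Finset ℕ, J = Ioo (i ^ 4 - 1) (2 ^ 2 ^ k) := ⟨_, rfl⟩
    have h3 : I ⊆ J := by
      intro l hl
      have h4 := (hmem l hl).1
      rw [hJ, mem_Ioo]
      omega
    have hJs : ∑ l ∈ J, ((l : ℝ) ^ 2)⁻¹ ≤ 2 / (((i ^ 4 - 1 : ℕ) : ℝ) + 1) := by
      rw [hJ]
      exact sum_Ioo_inv_sq_le _ _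
    calc ∑ l ∈ I, (1 : ℝ) / (l : ℝ) ^ 2 ≤ ∑ l ∈ J, (1 : ℝ) / (l : ℝ) ^ 2 :=
          sum_le_sum_of_subset_of_nonneg h3 fun l _ _ => by positivity
      _ = ∑ l ∈ J, ((l : ℝ) ^ 2)⁻¹ := by
          refine sum_congr rfl fun l _ => ?_
          rw [one_div]
      _ ≤ 2 / (((i ^ 4 - 1 : ℕ) : ℝ) + 1) := hJs
      _ = 2 / (i : ℝ) ^ 4 := by
          rw [Nat.cast_sub (by omega)]
          push_cast
          ring
  have e7 : (I.card : ℝ) ^ 2 ≤ (√2) ^ i := by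
    have h3 : I.card ≤ 2 ^ 2 ^ k := by
      calc I.card ≤ (Ico (i ^ 4) (2 ^ 2 ^ k)).card := card_filter_le _ _
        _ = 2 ^ 2 ^ k - i ^ 4 := Nat.card_Ico _ _
        _ ≤ 2 ^ 2 ^ k := Nat.sub_le _ _
    have h4 : (I.card : ℝ) ≤ 2 ^ 2 ^ k := by exact_mod_cast h3
    have h5 : ((I.card : ℝ) ^ 2) ^ 2 ≤ ((√2) ^ i) ^ 2 := by
      calc ((I.card : ℝ) ^ 2) ^ 2 ≤ (((2 : ℝ) ^ 2 ^ k) ^ 2) ^ 2 := by
            gcongr
        _ = (2 : ℝ) ^ (4 * 2 ^ k) := by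
            rw [← pow_mul, ← pow_mul]
            congr 1
            ring
        _ ≤ (2 : ℝ) ^ i := pow_le_pow_right₀ (by norm_num) hk
        _ = ((√2) ^ i) ^ 2 := by
            rw [← pow_mul, mul_comm, pow_mul, Real.sq_sqrt (by norm_num)]
    exact (pow_le_pow_iff_left₀ (by positivity) (by positivity) two_ne_zero).1 h5
  have e8 : (((2 ^ (i + 1) : ℕ) : ℝ)) = 2 ^ (i + 1) := by push_cast; ring
  rw [e8]
  have h9 : (2 : ℝ) ^ (i + 1) * ∑ l ∈ I, (1 : ℝ) / (l : ℝ) ^ 2 ≤ 2 ^ (i + 1) * (2 / (i : ℝ) ^ 4) :=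
    mul_le_mul_of_nonneg_left e6 (by positivity)
  linarith

/-- the bound for one dyadic block -/
private noncomputable def tt (D : ℕ) (i : ℕ) : ℝ :=
  ((D : ℝ) + 1) ^ 2 * (((i : ℝ) + 1) * i * (4 / (i : ℝ) ^ 4 + 4 * (1 / √2) ^ i))

private theorem tt_nonneg (D i : ℕ) : 0 ≤ tt D i := by
  unfold tt
  positivity

private theorem tt_summable (D : ℕ) : Summable (tt D) := by
  have hr : ‖(1 / √2 : ℝ)‖ < 1 := by
    rw [Real.norm_of_nonneg (by positivity), div_lt_one (by positivity)]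
    rw [Real.lt_sqrt (by norm_num)]
    norm_num
  have s1 : Summable fun i : ℕ => ((i : ℝ) ^ 2)⁻¹ := by
    have := Real.summable_nat_pow_inv (p := 2)
    exact this.2 (by norm_num)
  have s2 : Summable fun i : ℕ => (i : ℝ) ^ 2 * (1 / √2) ^ i :=
    summable_pow_mul_geometric_of_norm_lt_one 2 hr
  have s3 : Summable fun i : ℕ => ((D : ℝ) + 1) ^ 2 * (8 * ((i : ℝ) ^ 2)⁻¹ + 8 * ((i : ℝ) ^ 2 * (1 / √2) ^ i)) :=
    ((s1.mul_left 8).add (s2.mul_left 8)).mul_left _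
  refine Summable.of_nonneg_of_le (tt_nonneg D) (fun i => ?_) s3
  unfold tt
  refine mul_le_mul_of_nonneg_left ?_ (by positivity)
  rcases Nat.eq_zero_or_pos i with rfl | hi
  · simp
  · have hi' : (1 : ℝ) ≤ i := by exact_mod_cast hi
    have h3 : ((i : ℝ) + 1) * i ≤ 2 * (i : ℝ) ^ 2 := by nlinarith
    have h4 : 0 ≤ 4 / (i : ℝ) ^ 4 + 4 * (1 / √2) ^ i := by positivity
    calc ((i : ℝ) + 1) * i * (4 / (i : ℝ) ^ 4 + 4 * (1 / √2) ^ i)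
        ≤ 2 * (i : ℝ) ^ 2 * (4 / (i : ℝ) ^ 4 + 4 * (1 / √2) ^ i) := mul_le_mul_of_nonneg_right h3 h4
      _ = 8 * ((i : ℝ) ^ 2)⁻¹ + 8 * ((i : ℝ) ^ 2 * (1 / √2) ^ i) := by
          have : (i : ℝ) ≠ 0 := by positivity
          field_simp
          ring

private theorem exc_block (χ : ℕ → ℕ → ℝ) (w : ℕ → ℝ) (D : ℕ) (hw0 : ∀ l, 0 ≤ w l)
    (hwD : ∀ l, w l ≤ D) (h1 : ∀ l m, |χ l m| ≤ 1)
    (h2 : ∀ l l' N : ℕ, l.Prime → l'.Prime → 2 < l → 2 < l' → l ≠ l' →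
      |∑ m ∈ Icc 1 N, χ l m * χ l' m| ≤ 4 * l * l') (i : ℕ) (S : Finset ℕ)
    (hS : ∀ m ∈ S, Exc χ w m ∧ Nat.log 2 m = i) :
    ∑ m ∈ S, Real.log m / m ≤ tt D i := by
  rcases S.eq_empty_or_nonempty with rfl | hne
  · rw [sum_empty]
    exact tt_nonneg D i
  have hi : 4 ≤ i := by
    obtain ⟨m, hm⟩ := hne
    obtain ⟨⟨k, hk, _⟩, hl⟩ := hS m hm
    rw [hl] at hk
    have := Nat.one_le_two_pow (n := k)
    omega
  have hi0 : (0 : ℝ) < i := by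
    have : 0 < i := by omega
    exact_mod_cast this
  -- location of the elements
  have hloc : ∀ m ∈ S, 2 ^ i ≤ m ∧ m < 2 ^ (i + 1) := by
    intro m hm
    obtain ⟨_, hl⟩ := hS m hm
    have hm0 : m ≠ 0 := by
      rintro rfl
      simp at hl
      omega
    refine ⟨?_, ?_⟩
    · rw [← hl]
      exact Nat.pow_log_le_self 2 hm0
    · rw [← hl]
      exact Nat.lt_pow_succ_log_self (by norm_num) m
  set KK : Finset ℕ := (range i).filter fun k => 4 * 2 ^ k ≤ i with hKK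
  -- number of elements
  have hcard : (S.card : ℝ) ≤ i * (((D : ℝ) + 1) ^ 2 * (2 ^ (i + 1) * (2 / (i : ℝ) ^ 4) + 4 * (√2) ^ i)) := by
    have h3 : (S.card : ℝ) = ∑ m ∈ S, (1 : ℝ) := by rw [sum_const, nsmul_eq_mul, mul_one]
    have h4 : ∀ m ∈ S, (1 : ℝ) ≤ ∑ k ∈ KK, (Fx χ w i k m) ^ 2 := by
      intro m hm
      obtain ⟨⟨k, hk, hx⟩, hl⟩ := hS m hm
      rw [hl] at hk hx
      have hkm : k ∈ KK := by
        rw [hKK, mem_filter, mem_range]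
        refine ⟨?_, hk⟩
        have := Nat.lt_two_pow_self (n := k)
        omega
      calc (1 : ℝ) ≤ (Fx χ w i k m) ^ 2 := by
            rw [← sq_abs]
            nlinarith [abs_nonneg (Fx χ w i k m)]
        _ ≤ ∑ k ∈ KK, (Fx χ w i k m) ^ 2 :=
            single_le_sum (f := fun k => (Fx χ w i k m) ^ 2) (fun k _ => sq_nonneg _) hkm
    have h5 : S ⊆ Icc 1 (2 ^ (i + 1)) := by
      intro m hm
      have h6 := hloc m hm
      have h7 := Nat.one_le_two_pow (n := i)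
      rw [mem_Icc]
      omega
    calc (S.card : ℝ) = ∑ m ∈ S, (1 : ℝ) := h3
      _ ≤ ∑ m ∈ S, ∑ k ∈ KK, (Fx χ w i k m) ^ 2 := sum_le_sum h4
      _ ≤ ∑ m ∈ Icc 1 (2 ^ (i + 1)), ∑ k ∈ KK, (Fx χ w i k m) ^ 2 :=
          sum_le_sum_of_subset_of_nonneg h5 fun m _ _ => sum_nonneg fun k _ => sq_nonneg _
      _ = ∑ k ∈ KK, ∑ m ∈ Icc 1 (2 ^ (i + 1)), (Fx χ w i k m) ^ 2 := sum_comm
      _ ≤ ∑ k ∈ KK, ((D : ℝ) + 1) ^ 2 * (2 ^ (i + 1) * (2 / (i : ℝ) ^ 4) + 4 * (√2) ^ i) :=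
          sum_le_sum fun k hk => exc_moment χ w D hw0 hwD h1 h2 i k (mem_filter.1 hk).2
      _ = KK.card * (((D : ℝ) + 1) ^ 2 * (2 ^ (i + 1) * (2 / (i : ℝ) ^ 4) + 4 * (√2) ^ i)) := by
          rw [sum_const, nsmul_eq_mul]
      _ ≤ i * (((D : ℝ) + 1) ^ 2 * (2 ^ (i + 1) * (2 / (i : ℝ) ^ 4) + 4 * (√2) ^ i)) := by
          refine mul_le_mul_of_nonneg_right ?_ (by positivity)
          have h8 : KK.card ≤ i := (card_filter_le _ _).trans (by rw [card_range])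
          exact_mod_cast h8
  -- size of one term
  have hterm : ∀ m ∈ S, Real.log m / m ≤ ((i : ℝ) + 1) / 2 ^ i := by
    intro m hm
    obtain ⟨h3, h4⟩ := hloc m hm
    have h3' : (2 : ℝ) ^ i ≤ m := by exact_mod_cast h3
    have h4' : (m : ℝ) ≤ 2 ^ (i + 1) := by exact_mod_cast h4.le
    have hm0 : (0 : ℝ) < m := lt_of_lt_of_le (by positivity) h3'
    have h5 : Real.log m ≤ (i : ℝ) + 1 := by
      calc Real.log m ≤ Real.log ((2 : ℝ) ^ (i + 1)) := Real.log_le_log hm0 h4'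
        _ = ((i : ℝ) + 1) * Real.log 2 := by
            rw [Real.log_pow]
            push_cast
            ring
        _ ≤ ((i : ℝ) + 1) * 1 := by
            refine mul_le_mul_of_nonneg_left ?_ (by positivity)
            have := Real.log_two_lt_d9
            linarith
        _ = (i : ℝ) + 1 := mul_one _
    exact div_le_div₀ (by positivity) h5 (by positivity) h3'
  calc ∑ m ∈ S, Real.log m / m ≤ ∑ m ∈ S, ((i : ℝ) + 1) / 2 ^ i := sum_le_sum hterm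
    _ = S.card * (((i : ℝ) + 1) / 2 ^ i) := by rw [sum_const, nsmul_eq_mul]
    _ ≤ (i * (((D : ℝ) + 1) ^ 2 * (2 ^ (i + 1) * (2 / (i : ℝ) ^ 4) + 4 * (√2) ^ i)))
        * (((i : ℝ) + 1) / 2 ^ i) := mul_le_mul_of_nonneg_right hcard (by positivity)
    _ = tt D i := by
        unfold tt
        have h6 : (2 : ℝ) ^ i = (√2) ^ i * (√2) ^ i := by
          rw [← mul_pow, Real.mul_self_sqrt (by norm_num)]
        have h7 : (√2 : ℝ) ^ i ≠ 0 := by positivity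
        rw [pow_succ (2 : ℝ) i, h6, div_pow, one_pow]
        generalize (√2 : ℝ) ^ i = r at h7
        have h8 : (i : ℝ) ≠ 0 := hi0.ne'
        field_simp
        ring

theorem exc_sum (χ : ℕ → ℕ → ℝ) (w : ℕ → ℝ) (D : ℕ) (hw0 : ∀ l, 0 ≤ w l) (hwD : ∀ l, w l ≤ D)
    (h1 : ∀ l m, |χ l m| ≤ 1)
    (h2 : ∀ l l' N : ℕ, l.Prime → l'.Prime → 2 < l → 2 < l' → l ≠ l' →
      |∑ m ∈ Icc 1 N, χ l m * χ l' m| ≤ 4 * l * l') :
    ∃ C : ℝ, 0 ≤ C ∧ ∀ S : Finset ℕ, (∀ m ∈ S, Exc χ w m) → ∑ m ∈ S, Real.log m / m ≤ C := by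
  refine ⟨∑' i, tt D i, tsum_nonneg (tt_nonneg D), fun S hS => ?_⟩
  set n : ℕ := S.sup (fun m => Nat.log 2 m) + 1 with hn
  have h3 : ∀ m ∈ S, Nat.log 2 m ∈ range n := by
    intro m hm
    rw [mem_range, hn]
    exact Nat.lt_succ_of_le (le_sup (f := fun m => Nat.log 2 m) hm)
  calc ∑ m ∈ S, Real.log m / m
      = ∑ i ∈ range n, ∑ m ∈ S with Nat.log 2 m = i, Real.log m / m :=
        (sum_fiberwise_of_maps_to h3 _).symm
    _ ≤ ∑ i ∈ range n, tt D i := by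
        refine sum_le_sum fun i _ => ?_
        refine exc_block χ w D hw0 hwD h1 h2 i _ fun m hm => ?_
        rw [mem_filter] at hm
        exact ⟨hS m hm.1, hm.2⟩
    _ ≤ ∑' i, tt D i := (tt_summable D).sum_le_tsum _ fun i _ => tt_nonneg D i

end Pool.Agent.H37.PB
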