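import Pool.Agent.H37.PB.Defs

/-!
PB Hf: for a non-exceptional `q` the primes `l < T ≤ q` with `χ l q = -1` have weight at least half, up to `log log log q`.

`i = Nat.log 2 q`, `j = Nat.log 2 T ≤ i`.  If `j < 16` then `ll T ≤ ll (2^16)` and the left side is `≤ 0` for `C1` large (`lam q ≥ 0`,
sum `≥ 0`).  Otherwise `k = Nat.log 2 (j/4)`: `4 · 2^k ≤ j ≤ i`, `2^(2^k) ≤ 2^(j/4) ≤ T`, `ll (2^(2^k)) = k log 2 + log log 2 ≥ ll T - C`.
`ll (i^4) = log (4 log i) ≤ log 4 + lam q` (`log i ≤ ll q + 1`).  If `2^(2^k) ≤ i^4` the left side is `≤ 0` again.  Otherwise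
 `∑_{pr (i^4) (2^(2^k)), χ = -1} w l/l = (∑ w l/l - Fx χ w i k q)/2 ≥ (ll (2^(2^k)) - ll (i^4) - C - 1)/2` (not exceptional), and
 dropping the `l ≤ B` costs at most `D (B+1)`.
-/

set_option autoImplicit false

namespace Pool.Agent.H37.PB

open Finset Polynomial Pool.Agent.H37.PPC Pool.Agent.H37.PPD

private theorem hf_lg2 : (0.69 : ℝ) < Real.log 2 ∧ Real.log 2 < 0.7 :=
  ⟨by have := Real.log_two_gt_d9; linarith, by have := Real.log_two_lt_d9; linarith⟩

private theorem hf_ll_mono {a b : ℕ} (ha : 2 ≤ a) (hab : a ≤ b) : ll a ≤ ll b := by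
  have h1 : (2 : ℝ) ≤ a := by exact_mod_cast ha
  have h2 : (a : ℝ) ≤ b := by exact_mod_cast hab
  have h3 : 0 < Real.log a := Real.log_pos (by linarith)
  exact Real.log_le_log h3 (Real.log_le_log (by linarith) h2)

/-- `ll (2^m) = log m + log log 2` -/
private theorem hf_ll_pow (m : ℕ) (hm : 1 ≤ m) : ll (2 ^ m) = Real.log m + Real.log (Real.log 2) := by
  have h0 := hf_lg2
  have h1 : (1 : ℝ) ≤ m := by exact_mod_cast hm
  unfold ll
  rw [Nat.cast_pow, Real.log_pow, Nat.cast_ofNat, Real.log_mul (by positivity) (by linarith [h0.1])]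

private theorem hf_lglg : -1 ≤ Real.log (Real.log 2) ∧ Real.log (Real.log 2) ≤ 0 := by
  have h0 := hf_lg2
  constructor
  · rw [Real.le_log_iff_exp_le (by linarith [h0.1])]
    have h1 : Real.exp (-1) < 0.3678794412 := Real.exp_neg_one_lt_d9
    linarith [h0.1]
  · exact Real.log_nonpos (by linarith [h0.1]) (by linarith [h0.2])

theorem half_lower (h : ℤ[X]) (B D : ℕ) (C : ℝ) (w : ℕ → ℝ) (hw : Wt h B D C w) (χ : ℕ → ℕ → ℝ) :
    ∃ C1 : ℝ, 0 ≤ C1 ∧ ∀ q T : ℕ, ¬ Exc χ w q → (∀ l : ℕ, l.Prime → 2 < l → l < q → χ l q = 1 ∨ χ l q = -1) →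
      2 ≤ T → T ≤ q →
      (ll T - lam q) / 2 - C1 ≤ ∑ l ∈ (pr 2 T).filter (fun l => B < l ∧ 2 < l ∧ χ l q = -1), w l / l := by
  have hC : 0 ≤ C := le_trans (abs_nonneg _) (hw.me 2 2 le_rfl le_rfl)
  refine ⟨10 + C + D * (B + 1), by positivity, ?_⟩
  intro q T hE hχ hT hTq
  have hDB : (0 : ℝ) ≤ D * (B + 1) := by positivity
  have hsum0 : 0 ≤ ∑ l ∈ (pr 2 T).filter (fun l => B < l ∧ 2 < l ∧ χ l q = -1), w l / l :=
    sum_nonneg fun l _ => div_nonneg (hw.nn l) (Nat.cast_nonneg l)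
  have hq2 : 2 ≤ q := hT.trans hTq
  obtain ⟨hlg1, hlg2⟩ := hf_lg2
  obtain ⟨hll1, hll2⟩ := hf_lglg
  have hllq : -1 ≤ ll q := by
    have := hf_ll_mono le_rfl hq2
    have h2 := hf_ll_pow 1 le_rfl
    rw [pow_one] at h2
    rw [h2, Nat.cast_one, Real.log_one] at this
    linarith
  have hlam : 0 ≤ lam q := Real.log_nonneg (by linarith)
  set i := Nat.log 2 q with hi
  set j := Nat.log 2 T with hj
  have hji : j ≤ i := Nat.log_mono_right hTq
  have hTlt : T < 2 ^ (j + 1) := Nat.lt_pow_succ_log_self (by norm_num) T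
  have hTge : 2 ^ j ≤ T := Nat.pow_log_le_self 2 (by omega)
  have hqge : 2 ^ i ≤ q := Nat.pow_log_le_self 2 (by omega)
  have hllT : ll T ≤ Real.log ((j + 1 : ℕ) : ℝ) := by
    have h1 := hf_ll_mono hT hTlt.le
    rw [hf_ll_pow (j + 1) (by omega)] at h1
    linarith
  -- a lower bound of the sum by any bound `≤ 0`
  rcases Nat.lt_or_ge j 16 with hj16 | hj16
  · have h1 : Real.log ((j + 1 : ℕ) : ℝ) ≤ Real.log 16 := by
      apply Real.log_le_log (by positivity)
      have : j + 1 ≤ 16 := by omega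
      exact_mod_cast this
    have h2 : Real.log 16 = 4 * Real.log 2 := by
      rw [show (16 : ℝ) = 2 ^ 4 by norm_num, Real.log_pow]; norm_num
    linarith
  · set k := Nat.log 2 (j / 4) with hk
    have hj4 : 4 ≤ j / 4 := by omega
    have hk1 : 2 ^ k ≤ j / 4 := Nat.pow_log_le_self 2 (by omega)
    have hk2 : j / 4 < 2 ^ (k + 1) := Nat.lt_pow_succ_log_self (by norm_num) _
    have hk3 : 4 * 2 ^ k ≤ i := by omega
    have hkpos : 1 ≤ 2 ^ k := Nat.one_le_two_pow
    have hF : |Fx χ w i k q| ≤ 1 := by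
      by_contra hcon
      exact hE ⟨k, hk3, not_le.mp hcon⟩
    have hjk : j < 8 * 2 ^ k := by rw [pow_succ] at hk2; omega
    -- `ll T ≤ ll (2^(2^k)) + 4`
    have h2 : ll T ≤ ll (2 ^ 2 ^ k) + 4 := by
      rw [hf_ll_pow (2 ^ k) hkpos]
      have h3 : Real.log ((j + 1 : ℕ) : ℝ) ≤ Real.log (8 * (2 ^ k : ℕ) : ℝ) := by
        apply Real.log_le_log (by positivity)
        have : j + 1 ≤ 8 * 2 ^ k := by omega
        exact_mod_cast this
      have h4 : Real.log (8 * (2 ^ k : ℕ) : ℝ) = 3 * Real.log 2 + Real.log ((2 ^ k : ℕ) : ℝ) := by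
        rw [Real.log_mul (by norm_num) (by positivity), show (8 : ℝ) = 2 ^ 3 by norm_num, Real.log_pow]; norm_num
      linarith
    -- `ll (i^4) ≤ 2 + lam q`
    have hi16 : 16 ≤ i := by omega
    have h5 : ll (i ^ 4) ≤ 2 + lam q := by
      have hir : (16 : ℝ) ≤ i := by exact_mod_cast hi16
      have hli : 0 < Real.log i := Real.log_pos (by linarith)
      unfold ll
      rw [Nat.cast_pow, Real.log_pow, Real.log_mul (by norm_num) hli.ne']
      have h6 : Real.log ((4 : ℕ) : ℝ) = 2 * Real.log 2 := by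
        rw [show ((4 : ℕ) : ℝ) = 2 ^ 2 by norm_num, Real.log_pow]; norm_num
      have h7 : Real.log i ≤ ll q + 3 := by
        have h8 := hf_ll_mono (a := 2 ^ i) (b := q)
          (le_trans (by norm_num : 2 ≤ 2 ^ 1) (Nat.pow_le_pow_right (by norm_num) (by omega))) hqge
        rw [hf_ll_pow i (by omega)] at h8
        linarith
      have h9 : Real.log (Real.log i) ≤ lam q := Real.log_le_log hli h7
      linarith
    rcases Nat.lt_or_ge (i ^ 4) (2 ^ 2 ^ k) with hc | hc
    · -- main case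
      have hi4 : 16 ≤ i ^ 4 := le_trans hi16 (Nat.le_self_pow (by norm_num) i)
      have hme := hw.me (i ^ 4) (2 ^ 2 ^ k) (by omega) hc.le
      have hme' := (abs_le.mp hme).1
      have h2kT : 2 ^ 2 ^ k ≤ T := by
        refine le_trans (Nat.pow_le_pow_right (by norm_num) ?_) hTge
        omega
      -- split by the sign
      have hkey : ∑ l ∈ pr (i ^ 4) (2 ^ 2 ^ k), w l / l - Fx χ w i k q =
          2 * ∑ l ∈ (pr (i ^ 4) (2 ^ 2 ^ k)).filter (fun l => χ l q = -1), w l / l := by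
        unfold Fx
        rw [← sum_sub_distrib, sum_filter, mul_sum]
        refine sum_congr rfl fun l hl => ?_
        obtain ⟨⟨hl1, hl2⟩, hlp⟩ := mem_pr.mp hl
        rcases hχ l hlp (by omega) (by omega) with h | h
        · rw [if_neg (by rw [h]; norm_num), h]; ring
        · rw [if_pos h, h]; ring
      have hsp : ∑ l ∈ (pr (i ^ 4) (2 ^ 2 ^ k)).filter (fun l => χ l q = -1), w l / l ≤
          ∑ l ∈ (pr 2 T).filter (fun l => B < l ∧ 2 < l ∧ χ l q = -1), w l / l + D * (B + 1) := by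
        have hsub : (pr (i ^ 4) (2 ^ 2 ^ k)).filter (fun l => χ l q = -1) ⊆
            (pr 2 T).filter (fun l => B < l ∧ 2 < l ∧ χ l q = -1) ∪ Finset.range (B + 1) := by
          intro l hl
          obtain ⟨hl0, hl3⟩ := mem_filter.mp hl
          obtain ⟨⟨hl1, hl2⟩, hlp⟩ := mem_pr.mp hl0
          rw [mem_union, mem_filter, mem_range]
          rcases Nat.lt_or_ge B l with hB | hB
          · left
            exact ⟨mem_pr.mpr ⟨⟨hlp.two_le, by omega⟩, hlp⟩, hB, by omega, hl3⟩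
          · right; omega
        have hnn : ∀ l, 0 ≤ w l / (l : ℝ) := fun l => div_nonneg (hw.nn l) (Nat.cast_nonneg l)
        refine le_trans (sum_le_sum_of_subset_of_nonneg hsub fun l _ _ => hnn l) ?_
        refine le_trans (sum_union_inter (s₁ := (pr 2 T).filter (fun l => B < l ∧ 2 < l ∧ χ l q = -1))
          (s₂ := Finset.range (B + 1)) (f := fun l : ℕ => w l / (l : ℝ)) ▸
          le_add_of_nonneg_right (sum_nonneg fun l _ => hnn l)) ?_
        refine add_le_add le_rfl ?_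
        refine le_trans (sum_le_card_nsmul _ _ (D : ℝ) fun l _ => ?_) ?_
        · rcases Nat.eq_zero_or_pos l with h | h
          · rw [h]; simp
          · have h1 : (1 : ℝ) ≤ l := by exact_mod_cast h
            exact le_trans (div_le_self (hw.nn l) h1) (hw.le l)
        · rw [card_range, nsmul_eq_mul]
          push_cast
          nlinarith
      have hF2 := (abs_le.mp hF).2
      linarith
    · -- `2^(2^k) ≤ i^4`
      have h6 : ll (2 ^ 2 ^ k) ≤ ll (i ^ 4) := by
        apply hf_ll_mono _ hc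
        exact le_trans (by norm_num : 2 ≤ 2 ^ 1) (Nat.pow_le_pow_right (by norm_num) hkpos)
      linarith

end Pool.Agent.H37.PB
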