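import Pool.Agent.H37.PB.Wt
import Pool.Agent.H37.PB.Ex
import Pool.Agent.H37.PB.Hf
import Pool.Agent.H37.PB.Cl
import Pool.Agent.H37.PPD.ST
import Pool.Agent.H37.PPC.Top

/-!
PB Core: the count.
-/

set_option autoImplicit false

namespace Pool.Agent.H37.PB

open Finset Polynomial Pool.Agent.H37.PPC Pool.Agent.H37.PPD

/-- `(l / q)` -/
noncomputable def ch1 (l m : ℕ) : ℝ := psi (l : ℤ) m

/-- `(p / l)` -/
noncomputable def ch2 (l m : ℕ) : ℝ := (jacobiSym (m : ℤ) l : ℝ)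

theorem ll_mono {a b : ℕ} (ha : 2 ≤ a) (hab : a ≤ b) : ll a ≤ ll b := loglog_mono ha hab

theorem ll_two : -1 ≤ ll 2 := by
  unfold ll
  have h3 := Real.log_two_gt_d9
  rw [Real.le_log_iff_exp_le (by push_cast; linarith)]
  have h4 : Real.exp (-1) ≤ 0.5 := by
    have := Real.exp_neg_one_lt_d9
    linarith
  push_cast
  linarith

theorem ll_ge {a : ℕ} (ha : 2 ≤ a) : -1 ≤ ll a := ll_two.trans (ll_mono le_rfl ha)

theorem ll_succ {a : ℕ} (ha : 2 ≤ a) : ll (a + 1) ≤ ll a + 1 := by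
  unfold ll
  have h1 : (2 : ℝ) ≤ a := by exact_mod_cast ha
  have h2 : Real.log ((a + 1 : ℕ) : ℝ) ≤ 2 * Real.log a := by
    have : (2 : ℝ) * Real.log a = Real.log ((a : ℝ) ^ 2) := by rw [Real.log_pow]; norm_num
    rw [this]
    apply Real.log_le_log (by positivity)
    push_cast
    nlinarith
  have h3 : 0 < Real.log a := Real.log_pos (by linarith)
  have h4 : 0 < Real.log ((a + 1 : ℕ) : ℝ) := Real.log_pos (by push_cast; linarith)
  have h5 := Real.log_le_log h4 h2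
  rw [Real.log_mul (by norm_num) h3.ne'] at h5
  have := Real.log_two_lt_d9
  linarith

theorem exp_ll {a : ℕ} (ha : 2 ≤ a) : Real.exp (ll a) = Real.log a := by
  unfold ll
  exact Real.exp_log (Real.log_pos (by exact_mod_cast (by omega : 1 < a)))

theorem lam_mono {a b : ℕ} (ha : 2 ≤ a) (hab : a ≤ b) : lam a ≤ lam b := by
  unfold lam
  have h1 := ll_ge ha
  have h2 := ll_mono ha hab
  exact Real.log_le_log (by linarith) (by linarith)

theorem ch1_abs (l m : ℕ) : |ch1 l m| ≤ 1 := by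
  unfold ch1 psi
  split_ifs
  · rcases jacobiSym.trichotomy (l : ℤ) m with h | h | h <;> rw [h] <;> norm_num
  · norm_num

theorem ch2_abs (l m : ℕ) : |ch2 l m| ≤ 1 := by
  unfold ch2
  rcases jacobiSym.trichotomy (m : ℤ) l with h | h | h <;> rw [h] <;> norm_num

theorem ch1_pm (q l : ℕ) (hq : q.Prime) (hq2 : 2 < q) (hl : l.Prime) (hlq : l < q) :
    ch1 l q = 1 ∨ ch1 l q = -1 := by
  have ho : Odd q := hq.odd_of_ne_two (by omega)
  have hc : Nat.Coprime l q := (Nat.coprime_primes hl hq).2 (by omega)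
  unfold ch1 psi
  rw [if_pos ho]
  have h0 : jacobiSym (l : ℤ) q ≠ 0 := by
    rw [Ne, jacobiSym.eq_zero_iff]
    rintro ⟨_, h⟩
    apply h
    rw [Int.gcd_natCast_natCast]
    exact hc
  rcases jacobiSym.trichotomy (l : ℤ) q with h | h | h
  · exact absurd h h0
  · left; rw [h]; norm_num
  · right; rw [h]; norm_num

theorem ch2_pm (p l : ℕ) (hp : p.Prime) (hl : l.Prime) (hlp : l < p) :
    ch2 l p = 1 ∨ ch2 l p = -1 := by
  have hc : Nat.Coprime p l := (Nat.coprime_primes hp hl).2 (by omega)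
  unfold ch2
  have h0 : jacobiSym (p : ℤ) l ≠ 0 := by
    rw [Ne, jacobiSym.eq_zero_iff]
    rintro ⟨_, h⟩
    apply h
    rw [Int.gcd_natCast_natCast]
    exact hc
  rcases jacobiSym.trichotomy (p : ℤ) l with h | h | h
  · exact absurd h h0
  · left; rw [h]; norm_num
  · right; rw [h]; norm_num

section

variable {h1 h2 : ℤ[X]} {B D : ℕ} {C : ℝ} {w1 w2 : ℕ → ℝ}

/-- no prime divisor of `h1(m)` -/
theorem count_none1 (hc : ∀ l : ℕ, l.Prime → ∀ m : ℤ, (l : ℤ) ∣ h1.eval m → ¬ (l : ℤ) ∣ h2.eval m)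
    (hw1 : Wt h1 B D C w1) (hw2 : Wt h2 B D C w2) (hB : 2 * D ≤ B) (hB1 : 1 ≤ B) :
    ∃ K : ℝ, 0 < K ∧ ∃ s : ℕ, 0 < s ∧ ∀ (Y y : ℕ) (M : ℤ), 2 ≤ y → y ^ s ≤ Y → B ≤ y → ∀ S : Finset ℤ,
    (∀ m ∈ S, M < m ∧ m ≤ M + Y ∧ ((∀ l ∈ pr (B + 1) (y + 1), ¬ (l : ℤ) ∣ h1.eval m) ∨
      (∀ l ∈ pr (B + 1) (y + 1), ¬ (l : ℤ) ∣ h2.eval m))) →
    (S.card : ℝ) ≤ K * Y * Real.exp (-ll y) := by
  classical
  obtain ⟨K, hK, s, hs, H⟩ := res_count hc hw1 hw2 hB hB1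
  have hC0 : 0 ≤ C := (abs_nonneg _).trans (hw1.me 2 2 le_rfl le_rfl)
  refine ⟨2 * (K * Real.exp (C + ll (B + 1))), by positivity, s, hs, ?_⟩
  intro Y y M hy hyY hBy S hS
  have hm : ∀ w : ℕ → ℝ, (∀ a b : ℕ, 2 ≤ a → a ≤ b → |∑ l ∈ pr a b, w l / l - (ll b - ll a)| ≤ C) →
      Real.exp (-(∑ l ∈ pr (B + 1) (y + 1), w l / l)) ≤ Real.exp (C + ll (B + 1)) * Real.exp (-ll y) := by
    intro w hw
    rw [← Real.exp_add]
    apply Real.exp_le_exp.2
    have h3 := (abs_le.1 (hw (B + 1) (y + 1) (by omega) (by omega))).1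
    have h4 := ll_mono hy (by omega : y ≤ y + 1)
    linarith
  have hone : ∀ (Z1 Z2 : Finset ℕ) (S' : Finset ℤ), Z1 ⊆ pr (B + 1) (y + 1) → Z2 ⊆ pr (B + 1) (y + 1) →
      (∀ m ∈ S', M < m ∧ m ≤ M + Y ∧ (∀ l ∈ Z1, ¬ (l : ℤ) ∣ h1.eval m) ∧
        (∀ l ∈ Z2, ¬ (l : ℤ) ∣ h2.eval m)) →
      (S'.card : ℝ) ≤ K * Y * Real.exp (-(∑ l ∈ Z1, w1 l / l) - ∑ l ∈ Z2, w2 l / l) := by
    intro Z1 Z2 S' hZ1 hZ2 hS'
    have h3 := H Y y 1 M hy one_pos (by rw [one_mul]; exact hyY) Z1 Z2 hZ1 hZ2 (by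
      intro l hl hd
      have h4 : l ∈ pr (B + 1) (y + 1) := by
        rcases mem_union.1 hl with h | h
        · exact hZ1 h
        · exact hZ2 h
      exact (mem_pr.1 h4).2.one_lt.ne' (Nat.dvd_one.1 hd)) {0} S' (by
      intro m hm
      obtain ⟨a1, a2, a3, a4⟩ := hS' m hm
      refine ⟨a1, a2, ?_, a3, a4⟩
      simp)
    simpa using h3
  obtain ⟨N1, hN1⟩ : ∃ N : ℤ → Prop, ∀ m, N m ↔ ∀ l ∈ pr (B + 1) (y + 1), ¬ (l : ℤ) ∣ h1.eval m :=
    ⟨_, fun m => Iff.rfl⟩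
  obtain ⟨N2, hN2⟩ : ∃ N : ℤ → Prop, ∀ m, N m ↔ ∀ l ∈ pr (B + 1) (y + 1), ¬ (l : ℤ) ∣ h2.eval m :=
    ⟨_, fun m => Iff.rfl⟩
  have hS1 := hone (pr (B + 1) (y + 1)) ∅ (S.filter N1)
    (Subset.refl _) (empty_subset _) (by
      intro m hm
      rw [mem_filter] at hm
      exact ⟨(hS m hm.1).1, (hS m hm.1).2.1, (hN1 m).1 hm.2, by simp⟩)
  have hS2 := hone ∅ (pr (B + 1) (y + 1)) (S.filter N2)
    (empty_subset _) (Subset.refl _) (by
      intro m hm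
      rw [mem_filter] at hm
      exact ⟨(hS m hm.1).1, (hS m hm.1).2.1, by simp, (hN2 m).1 hm.2⟩)
  rw [sum_empty, sub_zero] at hS1
  rw [sum_empty, neg_zero, zero_sub] at hS2
  have hcov : S ⊆ (S.filter N1) ∪ (S.filter N2) := by
    intro m hm
    rw [mem_union, mem_filter, mem_filter]
    rcases (hS m hm).2.2 with h | h
    · exact Or.inl ⟨hm, (hN1 m).2 h⟩
    · exact Or.inr ⟨hm, (hN2 m).2 h⟩
  have h3 : (S.card : ℝ) ≤ ((S.filter N1).card : ℝ) + ((S.filter N2).card : ℝ) := by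
    have := (card_le_card hcov).trans (card_union_le _ _)
    exact_mod_cast this
  have hKY : 0 ≤ K * (Y : ℝ) := by positivity
  have e1 := mul_le_mul_of_nonneg_left (hm w1 hw1.me) hKY
  have e2 := mul_le_mul_of_nonneg_left (hm w2 hw2.me) hKY
  calc (S.card : ℝ) ≤ K * Y * (Real.exp (C + ll (B + 1)) * Real.exp (-ll y)) +
        K * Y * (Real.exp (C + ll (B + 1)) * Real.exp (-ll y)) := by linarith
    _ = _ := by ring

/-- the weight of a pair -/
noncomputable def gg (E1 E2 : ℕ → Prop) [DecidablePred E1] [DecidablePred E2] (L : ℝ) (p q : ℕ) : ℝ :=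
  ((L + 3) * (Real.log p + Real.log q) + (if E2 p then Real.log p * Real.log q else 0) +
    (if E1 q then Real.log p * Real.log q else 0)) / (p * q)

open Classical in
theorem count_pair (hc : ∀ l : ℕ, l.Prime → ∀ m : ℤ, (l : ℤ) ∣ h1.eval m → ¬ (l : ℤ) ∣ h2.eval m)
    (hw1 : Wt h1 B D C w1) (hw2 : Wt h2 B D C w2) (hB : 2 * D ≤ B) (hB1 : 2 ≤ B) :
    ∃ K : ℝ, 0 < K ∧ ∃ s : ℕ, 0 < s ∧ ∀ (Y y : ℕ) (M : ℤ), 2 ≤ y → y ^ (s + 2) ≤ Y →
    ∀ p q : ℕ, p ∈ pr (B + 1) (y + 1) → q ∈ pr (B + 1) (y + 1) → ∀ S : Finset ℤ,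
    (∀ m ∈ S, M < m ∧ m ≤ M + Y ∧ (p : ℤ) ∣ h1.eval m ∧ (q : ℤ) ∣ h2.eval m ∧
      (∀ l ∈ pr (p + 1) (y + 1), ¬ (l : ℤ) ∣ h1.eval m) ∧ (∀ l ∈ pr (q + 1) (y + 1), ¬ (l : ℤ) ∣ h2.eval m) ∧
      ∀ p q : ℕ, p.Prime → q.Prime → 2 < p → 2 < q → (p : ℤ) ∣ h1.eval m → (q : ℤ) ∣ h2.eval m →
        jacobiSym (p : ℤ) q ≠ -1) →
    (S.card : ℝ) ≤ K * Y * (Real.exp (-(2 * ll y)) * gg (Exc ch1 w1) (Exc ch2 w2) (ll y) p q) := by
  obtain ⟨K, hK, s, hs, H⟩ := pair_count hc hw1 hw2 hB (by omega)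
  have hC0 : 0 ≤ C := (abs_nonneg _).trans (hw1.me 2 2 le_rfl le_rfl)
  obtain ⟨c1, hc1, H1⟩ := half_lower h1 B D C w1 hw1 ch1
  obtain ⟨c2, hc2, H2⟩ := half_lower h2 B D C w2 hw2 ch2
  refine ⟨K * Real.exp (2 * C + 2 + c1 + c2), by positivity, s, hs, ?_⟩
  intro Y y M hy hyY p q hp hq S hS
  have hp' := mem_pr.1 hp
  have hq' := mem_pr.1 hq
  have hp0 : (0 : ℝ) < p := by exact_mod_cast hp'.2.pos
  have hq0 : (0 : ℝ) < q := by exact_mod_cast hq'.2.pos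
  have hlp : 0 < Real.log p := Real.log_pos (by exact_mod_cast hp'.2.one_lt)
  have hlq : 0 < Real.log q := Real.log_pos (by exact_mod_cast hq'.2.one_lt)
  have hLy := ll_ge hy
  have hg0 : 0 ≤ gg (Exc ch1 w1) (Exc ch2 w2) (ll y) p q := by
    unfold gg
    apply div_nonneg _ (by positivity)
    have h3 : 0 ≤ (ll y + 3) * (Real.log p + Real.log q) := mul_nonneg (by linarith) (by linarith)
    have h4 : 0 ≤ Real.log p * Real.log q := by positivity
    split_ifs <;> linarith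
  by_cases hpq : p = q
  · have hSe : S = ∅ := by
      rw [eq_empty_iff_forall_notMem]
      intro m hm
      obtain ⟨a1, a2, a3, a4, -⟩ := hS m hm
      rw [← hpq] at a4
      exact hc p hp'.2 m a3 a4
    rw [hSe, card_empty, Nat.cast_zero]
    positivity
  -- the basic sums
  have hbase : ∀ (w : ℕ → ℝ) (t : ℕ), (∀ a b : ℕ, 2 ≤ a → a ≤ b → |∑ l ∈ pr a b, w l / l - (ll b - ll a)| ≤ C) →
      2 ≤ t → t ≤ y → ll y - ll t - C - 1 ≤ ∑ l ∈ pr (t + 1) (y + 1), w l / l := by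
    intro w t hw ht hty
    have h3 := (abs_le.1 (hw (t + 1) (y + 1) (by omega) (by omega))).1
    have h4 := ll_mono hy (by omega : y ≤ y + 1)
    have h5 := ll_succ ht
    linarith
  have hb1 := hbase w1 p hw1.me (by omega) (by omega)
  have hb2 := hbase w2 q hw2.me (by omega) (by omega)
  have hYpq : (0 : ℝ) ≤ K * (Y / (p * q)) := by positivity
  have hsubp : pr (p + 1) (y + 1) ⊆ pr (B + 1) (y + 1) := by
    intro l hl
    rw [mem_pr] at hl ⊢
    exact ⟨⟨by omega, hl.1.2⟩, hl.2⟩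
  have hsubq : pr (q + 1) (y + 1) ⊆ pr (B + 1) (y + 1) := by
    intro l hl
    rw [mem_pr] at hl ⊢
    exact ⟨⟨by omega, hl.1.2⟩, hl.2⟩
  -- it suffices to bound the exponential
  have hfin : ∀ E : ℝ, (S.card : ℝ) ≤ K * (Y / (p * q)) * Real.exp E →
      Real.exp E ≤ Real.exp (2 * C + 2 + c1 + c2) * (Real.exp (-(2 * ll y)) *
        (gg (Exc ch1 w1) (Exc ch2 w2) (ll y) p q * (p * q))) →
      (S.card : ℝ) ≤ K * Real.exp (2 * C + 2 + c1 + c2) * Y *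
        (Real.exp (-(2 * ll y)) * gg (Exc ch1 w1) (Exc ch2 w2) (ll y) p q) := by
    intro E h3 h4
    refine h3.trans ((mul_le_mul_of_nonneg_left h4 hYpq).trans (le_of_eq ?_))
    field_simp
  have hgg : gg (Exc ch1 w1) (Exc ch2 w2) (ll y) p q * (p * q) =
      (ll y + 3) * (Real.log p + Real.log q) + (if Exc ch2 w2 p then Real.log p * Real.log q else 0) +
      (if Exc ch1 w1 q then Real.log p * Real.log q else 0) := by
    unfold gg
    field_simp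
  have hpos3 : 0 ≤ (ll y + 3) * (Real.log p + Real.log q) := mul_nonneg (by linarith) (by linarith)
  have hpos4 : 0 ≤ Real.log p * Real.log q := by positivity
  by_cases hex : Exc ch2 w2 p ∨ Exc ch1 w1 q
  · -- exceptional pair
    have h3 := H Y y M hy hyY p q hp hq hpq (pr (p + 1) (y + 1)) (pr (q + 1) (y + 1)) hsubp hsubq S (by
      intro m hm
      obtain ⟨a1, a2, a3, a4, a5, a6, -⟩ := hS m hm
      exact ⟨a1, a2, a3, a4, a5, a6⟩)
    refine hfin _ h3 ?_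
    rw [hgg]
    have h4 : Real.exp (-(∑ l ∈ pr (p + 1) (y + 1), w1 l / l) - ∑ l ∈ pr (q + 1) (y + 1), w2 l / l) ≤
        Real.exp (2 * C + 2 + c1 + c2) * (Real.exp (-(2 * ll y)) * (Real.log p * Real.log q)) := by
      rw [← exp_ll (a := p) (by omega), ← exp_ll (a := q) (by omega), ← Real.exp_add, ← Real.exp_add,
        ← Real.exp_add]
      apply Real.exp_le_exp.2
      linarith
    refine h4.trans ?_
    apply mul_le_mul_of_nonneg_left _ (Real.exp_pos _).le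
    apply mul_le_mul_of_nonneg_left _ (Real.exp_pos _).le
    rcases hex with h | h
    · rw [if_pos h]
      split_ifs <;> linarith
    · rw [if_pos h]
      split_ifs <;> linarith
  · push Not at hex
    obtain ⟨hex1, hex2⟩ := hex
    set T : ℕ := min p q with hT
    have hT2 : 2 ≤ T := by
      rw [hT, le_min_iff]
      omega
    have hTp : T ≤ p := min_le_left _ _
    have hTq : T ≤ q := min_le_right _ _
    have g1 := H1 q T hex2 (fun l hl hl2 hlq => ch1_pm q l hq'.2 (by omega) hl hlq) hT2 hTq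
    have g2 := H2 p T hex1 (fun l hl hl2 hlp => ch2_pm p l hp'.2 hl hlp) hT2 hTp
    set F1 : Finset ℕ := (pr 2 T).filter (fun l => B < l ∧ 2 < l ∧ ch1 l q = -1) with hF1
    set F2 : Finset ℕ := (pr 2 T).filter (fun l => B < l ∧ 2 < l ∧ ch2 l p = -1) with hF2
    have hF1m : ∀ l ∈ F1, l < T ∧ l.Prime ∧ B < l ∧ 2 < l ∧ ch1 l q = -1 := by
      intro l hl
      rw [hF1, mem_filter, mem_pr] at hl
      exact ⟨hl.1.1.2, hl.1.2, hl.2.1, hl.2.2.1, hl.2.2.2⟩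
    have hF2m : ∀ l ∈ F2, l < T ∧ l.Prime ∧ B < l ∧ 2 < l ∧ ch2 l p = -1 := by
      intro l hl
      rw [hF2, mem_filter, mem_pr] at hl
      exact ⟨hl.1.1.2, hl.1.2, hl.2.1, hl.2.2.1, hl.2.2.2⟩
    have d1 : Disjoint (pr (p + 1) (y + 1)) F1 := by
      rw [disjoint_left]
      intro l hl hl'
      have a := mem_pr.1 hl
      have b := hF1m l hl'
      omega
    have d2 : Disjoint (pr (q + 1) (y + 1)) F2 := by
      rw [disjoint_left]
      intro l hl hl'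
      have a := mem_pr.1 hl
      have b := hF2m l hl'
      omega
    have h3 := H Y y M hy hyY p q hp hq hpq (pr (p + 1) (y + 1) ∪ F1) (pr (q + 1) (y + 1) ∪ F2) (by
        apply union_subset hsubp
        intro l hl
        have b := hF1m l hl
        rw [mem_pr]
        exact ⟨⟨by omega, by omega⟩, b.2.1⟩) (by
        apply union_subset hsubq
        intro l hl
        have b := hF2m l hl
        rw [mem_pr]
        exact ⟨⟨by omega, by omega⟩, b.2.1⟩) S (by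
      intro m hm
      obtain ⟨a1, a2, a3, a4, a5, a6, a7⟩ := hS m hm
      refine ⟨a1, a2, a3, a4, ?_, ?_⟩
      · intro l hl
        rcases mem_union.1 hl with h | h
        · exact a5 l h
        · intro hd
          have b := hF1m l h
          have hj := a7 l q b.2.1 hq'.2 b.2.2.2.1 (by omega) hd a4
          have ho : Odd q := hq'.2.odd_of_ne_two (by omega)
          have e := b.2.2.2.2
          unfold ch1 psi at e
          rw [if_pos ho] at e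
          exact hj (by exact_mod_cast e)
      · intro l hl
        rcases mem_union.1 hl with h | h
        · exact a6 l h
        · intro hd
          have b := hF2m l h
          have hj := a7 p l hp'.2 b.2.1 (by omega) b.2.2.2.1 a3 hd
          have e := b.2.2.2.2
          unfold ch2 at e
          exact hj (by exact_mod_cast e))
    rw [sum_union d1, sum_union d2] at h3
    refine hfin _ h3 ?_
    rw [hgg, if_neg hex1, if_neg hex2, add_zero, add_zero]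
    have hlam1 := lam_mono (a := q) (b := y) (by omega) (by omega)
    have hlam2 := lam_mono (a := p) (b := y) (by omega) (by omega)
    have hmax : ll p + ll q - ll T = ll (max p q) := by
      rcases le_total p q with h | h
      · rw [hT, min_eq_left h, max_eq_right h]; ring
      · rw [hT, min_eq_right h, max_eq_left h]; ring
    have h4 : Real.exp (-(∑ l ∈ pr (p + 1) (y + 1), w1 l / l + ∑ l ∈ F1, w1 l / l) -
        (∑ l ∈ pr (q + 1) (y + 1), w2 l / l + ∑ l ∈ F2, w2 l / l)) ≤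
        Real.exp (2 * C + 2 + c1 + c2) * (Real.exp (-(2 * ll y)) * ((ll y + 3) * Real.log (max p q : ℕ))) := by
      rw [← exp_ll (a := max p q) (by have := le_max_left p q; omega)]
      have e1 : ll y + 3 = Real.exp (lam y) := by
        unfold lam
        rw [Real.exp_log (by linarith)]
      rw [e1, ← Real.exp_add, ← Real.exp_add, ← Real.exp_add]
      apply Real.exp_le_exp.2
      linarith
    refine h4.trans ?_
    apply mul_le_mul_of_nonneg_left _ (Real.exp_pos _).le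
    apply mul_le_mul_of_nonneg_left _ (Real.exp_pos _).le
    apply mul_le_mul_of_nonneg_left _ (by linarith)
    rcases le_total p q with h | h
    · rw [max_eq_right h]; linarith
    · rw [max_eq_left h]; linarith

end


theorem pr_sub {B y : ℕ} (hB : 1 ≤ B) : pr (B + 1) (y + 1) ⊆ pr 2 (y + 1) := by
  intro l hl
  rw [mem_pr] at hl ⊢
  exact ⟨⟨by omega, hl.1.2⟩, hl.2⟩

open Classical in
theorem sum_gg (E1 E2 : ℕ → Prop) (Ce : ℝ) (hCe : 0 ≤ Ce)
    (hE1 : ∀ S : Finset ℕ, (∀ m ∈ S, E1 m) → ∑ m ∈ S, Real.log m / m ≤ Ce)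
    (hE2 : ∀ S : Finset ℕ, (∀ m ∈ S, E2 m) → ∑ m ∈ S, Real.log m / m ≤ Ce) :
    ∃ K : ℝ, 0 < K ∧ ∀ B y : ℕ, 1 ≤ B → 2 ≤ y →
      ∑ p ∈ pr (B + 1) (y + 1), ∑ q ∈ pr (B + 1) (y + 1), gg E1 E2 (ll y) p q ≤
        K * ((ll y + 3) ^ 2 * Real.log y) := by
  obtain ⟨K1, hK1, H1⟩ := sum_logp
  obtain ⟨C, hC, H2⟩ := mertens_two
  refine ⟨2 * K1 * (1 + C) + Ce * K1, by positivity, ?_⟩
  intro B y hB hy
  set P := pr (B + 1) (y + 1) with hP
  have hPp : ∀ p ∈ P, p.Prime := fun p hp => (mem_pr.1 hp).2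
  have hL := ll_ge hy
  have hly : 0 < Real.log y := Real.log_pos (by exact_mod_cast (by omega : 1 < y))
  have s1 : ∑ p ∈ P, Real.log p / p ≤ K1 * Real.log y := by
    refine le_trans (sum_le_sum_of_subset_of_nonneg (pr_sub hB) fun l _ _ => ?_) (H1 y hy)
    exact div_nonneg (Real.log_natCast_nonneg l) (Nat.cast_nonneg _)
  have s2 : ∑ p ∈ P, (1 : ℝ) / p ≤ (1 + C) * (ll y + 3) := by
    have h3 : ∑ p ∈ P, (1 : ℝ) / p ≤ ∑ p ∈ pr 2 (y + 1), (1 : ℝ) / p :=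
      sum_le_sum_of_subset_of_nonneg (pr_sub hB) fun l _ _ => by positivity
    have h4 : ∑ p ∈ pr 2 (y + 1), (1 : ℝ) / p - (ll (y + 1) - ll 2) ≤ C :=
      (abs_le.1 (H2 2 (y + 1) le_rfl (by omega))).2
    have h5 := ll_succ hy
    have h6 := ll_two
    have h7 : C * 2 ≤ C * (ll y + 3) := mul_le_mul_of_nonneg_left (by linarith) hC.le
    have h8 : (1 + C) * (ll y + 3) = ll y + 3 + C * (ll y + 3) := by ring
    rw [h8]
    linarith
  have s10 : 0 ≤ ∑ p ∈ P, Real.log p / p :=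
    sum_nonneg fun l _ => div_nonneg (Real.log_natCast_nonneg l) (Nat.cast_nonneg _)
  have s20 : 0 ≤ ∑ p ∈ P, (1 : ℝ) / p := sum_nonneg fun l _ => by positivity
  have s3 : ∑ p ∈ P, (if E2 p then Real.log p / p else 0) ≤ Ce := by
    rw [← sum_filter]
    exact hE2 _ fun m hm => (mem_filter.1 hm).2
  have s4 : ∑ p ∈ P, (if E1 p then Real.log p / p else 0) ≤ Ce := by
    rw [← sum_filter]
    exact hE1 _ fun m hm => (mem_filter.1 hm).2
  have hsplit : ∀ p ∈ P, ∀ q ∈ P, gg E1 E2 (ll y) p q =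
      (ll y + 3) * ((Real.log p / p) * (1 / q)) + (ll y + 3) * ((1 / p) * (Real.log q / q)) +
      (if E2 p then Real.log p / p else 0) * (Real.log q / q) +
      (Real.log p / p) * (if E1 q then Real.log q / q else 0) := by
    intro p hp q hq
    have hp0 : (0 : ℝ) < p := by exact_mod_cast (hPp p hp).pos
    have hq0 : (0 : ℝ) < q := by exact_mod_cast (hPp q hq).pos
    unfold gg
    split_ifs <;> field_simp <;> ring
  have htot : ∑ p ∈ P, ∑ q ∈ P, gg E1 E2 (ll y) p q =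
      (ll y + 3) * ((∑ p ∈ P, Real.log p / p) * ∑ q ∈ P, (1 : ℝ) / q) +
      (ll y + 3) * ((∑ p ∈ P, (1 : ℝ) / p) * ∑ q ∈ P, Real.log q / q) +
      (∑ p ∈ P, if E2 p then Real.log p / p else 0) * (∑ q ∈ P, Real.log q / q) +
      (∑ p ∈ P, Real.log p / p) * ∑ q ∈ P, (if E1 q then Real.log q / q else 0) := by
    rw [sum_congr rfl fun p hp => sum_congr rfl fun q hq => hsplit p hp q hq]
    simp only [sum_add_distrib, ← mul_sum, ← sum_mul]
  rw [htot]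
  have m1 : (∑ p ∈ P, Real.log p / p) * ∑ q ∈ P, (1 : ℝ) / q ≤ (K1 * Real.log y) * ((1 + C) * (ll y + 3)) :=
    mul_le_mul s1 s2 s20 (by positivity)
  have m2 : (∑ p ∈ P, if E2 p then Real.log p / p else 0) * (∑ q ∈ P, Real.log q / q) ≤ Ce * (K1 * Real.log y) :=
    mul_le_mul s3 s1 s10 hCe
  have m3 : (∑ p ∈ P, Real.log p / p) * ∑ q ∈ P, (if E1 q then Real.log q / q else 0) ≤ (K1 * Real.log y) * Ce := by
    refine mul_le_mul s1 s4 ?_ (by positivity)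
    refine sum_nonneg fun l _ => ?_
    split_ifs
    · exact div_nonneg (Real.log_natCast_nonneg l) (Nat.cast_nonneg _)
    · exact le_rfl
  have hL3 : 2 ≤ ll y + 3 := by linarith
  have m1' := mul_le_mul_of_nonneg_left m1 (by linarith : (0 : ℝ) ≤ ll y + 3)
  have m4 : Ce * (K1 * Real.log y) * 2 ≤ Ce * (K1 * Real.log y) * (ll y + 3) ^ 2 := by
    apply mul_le_mul_of_nonneg_left _ (by positivity)
    nlinarith
  have e1 : (∑ p ∈ P, (1 : ℝ) / p) * ∑ q ∈ P, Real.log q / q = (∑ p ∈ P, Real.log p / p) * ∑ q ∈ P, (1 : ℝ) / q :=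
    mul_comm _ _
  rw [e1]
  nlinarith

/-! ### the rate -/

theorem ll_three : (0.08 : ℝ) ≤ ll 3 := by
  have h1 : (1.09 : ℝ) ≤ Real.log 3 := by
    rw [Real.le_log_iff_exp_le (by norm_num)]
    have h2 : Real.exp 1.09 = Real.exp 1 * Real.exp 0.09 := by rw [← Real.exp_add]; norm_num
    have h3 := Real.exp_one_lt_d9
    have h4 : Real.exp 0.09 ≤ 1 / (1 - 0.09) := Real.exp_bound_div_one_sub_of_interval (by norm_num) (by norm_num)
    rw [h2]
    have h5 := Real.exp_pos 1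
    have h6 := Real.exp_pos 0.09
    nlinarith
  unfold ll
  push_cast
  rw [Real.le_log_iff_exp_le (by linarith)]
  have h4 : Real.exp 0.08 ≤ 1 / (1 - 0.08) := Real.exp_bound_div_one_sub_of_interval (by norm_num) (by norm_num)
  linarith [show (1 : ℝ) / (1 - 0.08) ≤ 1.09 by norm_num]

theorem ll_ge3 {Y : ℕ} (hY : 3 ≤ Y) : (0.08 : ℝ) ≤ ll Y := ll_three.trans (ll_mono (by norm_num) hY)

theorem rate_pos {Y : ℕ} (hY : 3 ≤ Y) : 0 < rate Y := by
  unfold rate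
  have h1 := ll_ge3 hY
  have h2 : 0 < Real.log Y := Real.log_pos (by exact_mod_cast (by omega : 1 < Y))
  have h3 : (0 : ℝ) < Y := by exact_mod_cast (by omega : 0 < Y)
  positivity

theorem rate_small (Y0 : ℕ) : ∃ C : ℝ, 0 < C ∧ ∀ Y : ℕ, 3 ≤ Y → Y ≤ Y0 → (Y : ℝ) ≤ C * rate Y := by
  refine ⟨(Real.log (Y0 + 2)) / 0.0064, ?_, ?_⟩
  · have : 0 < Real.log ((Y0 : ℝ) + 2) := Real.log_pos (by linarith [(Nat.cast_nonneg Y0 : (0 : ℝ) ≤ Y0)])
    positivity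
  · intro Y hY hY0
    have h1 := ll_ge3 hY
    have h2 : 0 < Real.log Y := Real.log_pos (by exact_mod_cast (by omega : 1 < Y))
    have h3 : (0 : ℝ) < Y := by exact_mod_cast (by omega : 0 < Y)
    have h4 : Real.log Y ≤ Real.log ((Y0 : ℝ) + 2) := by
      apply Real.log_le_log h3
      have : (Y : ℝ) ≤ Y0 := by exact_mod_cast hY0
      linarith
    have h5 : (0.0064 : ℝ) ≤ ll Y ^ 2 := by nlinarith
    unfold rate
    rw [← mul_div_assoc, le_div_iff₀ h2]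
    have h6 : Real.log ((Y0 : ℝ) + 2) / 0.0064 * (Y * ll Y ^ 2) = Y * (Real.log ((Y0 : ℝ) + 2) * (ll Y ^ 2 / 0.0064)) := by
      ring
    rw [h6]
    apply mul_le_mul_of_nonneg_left _ h3.le
    have h7 : (1 : ℝ) ≤ ll Y ^ 2 / 0.0064 := by rw [le_div_iff₀ (by norm_num)]; linarith
    have h8 : 0 < Real.log ((Y0 : ℝ) + 2) := h2.trans_le h4
    nlinarith

theorem card_le_Y {S : Finset ℤ} {M : ℤ} {Y : ℕ} (hS : ∀ m ∈ S, M < m ∧ m ≤ M + Y) : S.card ≤ Y := by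
  have h1 : S ⊆ Finset.Ioc M (M + Y) := fun m hm => Finset.mem_Ioc.2 (hS m hm)
  have h2 := card_le_card h1
  rw [Int.card_Ioc] at h2
  have h3 : (M + (Y : ℤ) - M).toNat = Y := by omega
  omega

/-- comparison of `y` and `Y` -/
theorem rate_conv {T y Y : ℕ} (hT : 1 ≤ T) (hy : 2 ≤ y) (hY : 3 ≤ Y) (hyY : y ^ T ≤ Y) (hYy : Y < (y + 1) ^ T) :
    Y * (Real.exp (-ll y) * (ll y + 3) ^ 2) ≤ (2 * T * 1600) * rate Y := by
  have h1 := exp_ll_le hT hy hyY hYy 1 zero_le_one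
  rw [Real.rpow_one, Real.rpow_one] at h1
  have h2 : -1 * ll y = -ll y := by ring
  rw [h2] at h1
  have h3 : ll y ≤ ll Y := ll_mono hy ((Nat.le_self_pow (by omega) y).trans hyY)
  have h4 := ll_ge hy
  have h5 := ll_ge3 hY
  have h6 : (ll y + 3) ^ 2 ≤ 1600 * ll Y ^ 2 := by
    have h7 : ll y + 3 ≤ 40 * ll Y := by linarith
    have h8 := mul_self_le_mul_self (by linarith : 0 ≤ ll y + 3) h7
    nlinarith
  have hl : 0 < Real.log Y := Real.log_pos (by exact_mod_cast (by omega : 1 < Y))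
  have hY0 : (0 : ℝ) ≤ Y := Nat.cast_nonneg Y
  have hT0 : (0 : ℝ) ≤ 2 * T := by positivity
  calc (Y : ℝ) * (Real.exp (-ll y) * (ll y + 3) ^ 2) ≤ Y * ((2 * T / Real.log Y) * (1600 * ll Y ^ 2)) := by
        apply mul_le_mul_of_nonneg_left _ hY0
        exact mul_le_mul h1 h6 (by positivity) (by positivity)
    _ = _ := by unfold rate; ring

theorem core (h1 h2 : ℤ[X]) (hd1 : 1 ≤ h1.natDegree) (hd2 : 1 ≤ h2.natDegree)
    (hc : ∀ l : ℕ, l.Prime → ∀ m : ℤ, (l : ℤ) ∣ h1.eval m → ¬ (l : ℤ) ∣ h2.eval m) :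
    ∃ C : ℝ, 0 < C ∧ ∀ (Y : ℕ) (M : ℤ), 3 ≤ Y → ∀ S : Finset ℤ, (∀ m ∈ S, M < m ∧ m ≤ M + Y) →
      (∀ m ∈ S, ∀ p q : ℕ, p.Prime → q.Prime → 2 < p → 2 < q → (p : ℤ) ∣ h1.eval m → (q : ℤ) ∣ h2.eval m →
        jacobiSym (p : ℤ) q ≠ -1) →
      (S.card : ℝ) ≤ C * rate Y := by
  classical
  obtain ⟨B1, D1, C1, w1, hw1⟩ := exists_wt h1 hd1
  obtain ⟨B2, D2, C2, w2, hw2⟩ := exists_wt h2 hd2
  obtain ⟨D, hD⟩ : ∃ D : ℕ, D = D1 + D2 := ⟨_, rfl⟩
  obtain ⟨B, hB⟩ : ∃ B : ℕ, B = B1 + B2 + 2 * D + 2 := ⟨_, rfl⟩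
  obtain ⟨C, hC⟩ : ∃ C : ℝ, C = max C1 C2 := ⟨_, rfl⟩
  have hw1' : Wt h1 B D C w1 := hw1.mono (by omega) (by omega) (by rw [hC]; exact le_max_left _ _)
  have hw2' : Wt h2 B D C w2 := hw2.mono (by omega) (by omega) (by rw [hC]; exact le_max_right _ _)
  obtain ⟨Ka, hKa, sa, hsa, HA⟩ := count_none1 hc hw1' hw2' (by omega) (by omega)
  obtain ⟨Kb, hKb, sb, hsb, HB⟩ := count_pair hc hw1' hw2' (by omega) (by omega)
  obtain ⟨Ce1, hCe1, HE1⟩ := exc_sum ch1 w1 D hw1'.nn hw1'.le ch1_abs (by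
    intro l l' N hl hl' _ _ hne
    exact psi_prod l l' N hl hl' hne)
  obtain ⟨Ce2, hCe2, HE2⟩ := exc_sum ch2 w2 D hw2'.nn hw2'.le ch2_abs (by
    intro l l' N hl hl' h2 h2' hne
    exact jac_prod l l' N hl hl' hne h2 h2')
  obtain ⟨Kg, hKg, HG⟩ := sum_gg (Exc ch1 w1) (Exc ch2 w2) (max Ce1 Ce2) (hCe1.trans (le_max_left _ _))
    (fun S hS => (HE1 S hS).trans (le_max_left _ _)) (fun S hS => (HE2 S hS).trans (le_max_right _ _))
  obtain ⟨T, hT⟩ : ∃ T : ℕ, T = sa + sb + 2 := ⟨_, rfl⟩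
  obtain ⟨C0, hC0, H0⟩ := rate_small ((B + 2) ^ T)
  refine ⟨C0 + (Ka + Kb * Kg) * (2 * T * 1600), by positivity, ?_⟩
  intro Y M hY S hSI hS
  have hr := rate_pos hY
  have hSY : (S.card : ℝ) ≤ Y := by exact_mod_cast card_le_Y hSI
  by_cases hY0 : Y ≤ (B + 2) ^ T
  · have h3 := H0 Y hY hY0
    have h4 : 0 ≤ (Ka + Kb * Kg) * (2 * T * 1600) * rate Y := by positivity
    nlinarith
  push Not at hY0
  have h2T : 2 ^ T ≤ Y := (Nat.pow_le_pow_left (by omega) T).trans hY0.le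
  obtain ⟨y, hy, hyY, hYy⟩ := exists_root T Y (by omega) h2T
  have hBy : B + 2 ≤ y := by
    by_contra hlt
    have h3 : (y + 1) ^ T ≤ (B + 2) ^ T := Nat.pow_le_pow_left (by omega) T
    omega
  have hconv := rate_conv (T := T) (by omega) hy hY hyY hYy
  have hya : y ^ sa ≤ Y := (Nat.pow_le_pow_right (by omega) (by omega)).trans hyY
  have hyb : y ^ (sb + 2) ≤ Y := (Nat.pow_le_pow_right (by omega) (by omega)).trans hyY
  have hLy := ll_ge hy
  set P := pr (B + 1) (y + 1) with hP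
  -- the sets
  set S0 : Finset ℤ := S.filter (fun m => (∀ l ∈ P, ¬ (l : ℤ) ∣ h1.eval m) ∨ (∀ l ∈ P, ¬ (l : ℤ) ∣ h2.eval m)) with hS0
  obtain ⟨Pp, hPp⟩ : ∃ Pp : ℕ → ℕ → ℤ → Prop, ∀ p q m, Pp p q m ↔ ((p : ℤ) ∣ h1.eval m ∧ (q : ℤ) ∣ h2.eval m ∧
    (∀ l ∈ pr (p + 1) (y + 1), ¬ (l : ℤ) ∣ h1.eval m) ∧ (∀ l ∈ pr (q + 1) (y + 1), ¬ (l : ℤ) ∣ h2.eval m)) :=
    ⟨_, fun p q m => Iff.rfl⟩
  set Sp : ℕ → ℕ → Finset ℤ := fun p q => S.filter (Pp p q) with hSp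
  have hcov : S ⊆ S0 ∪ P.biUnion (fun p => P.biUnion (fun q => Sp p q)) := by
    intro m hm
    rw [mem_union]
    by_cases h3 : (∀ l ∈ P, ¬ (l : ℤ) ∣ h1.eval m) ∨ (∀ l ∈ P, ¬ (l : ℤ) ∣ h2.eval m)
    · left
      rw [hS0, mem_filter]
      exact ⟨hm, h3⟩
    · right
      push Not at h3
      obtain ⟨⟨l1, hl1, hd1'⟩, ⟨l2, hl2, hd2'⟩⟩ := h3
      have hmax : ∀ h : ℤ[X], (∃ l ∈ P, (l : ℤ) ∣ h.eval m) → ∃ p ∈ P, (p : ℤ) ∣ h.eval m ∧
          ∀ l ∈ pr (p + 1) (y + 1), ¬ (l : ℤ) ∣ h.eval m := by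
        rintro h ⟨l, hl, hd⟩
        have hne : (P.filter fun l : ℕ => (l : ℤ) ∣ h.eval m).Nonempty := ⟨l, mem_filter.2 ⟨hl, hd⟩⟩
        obtain ⟨p, hp, hpm⟩ := (P.filter fun l : ℕ => (l : ℤ) ∣ h.eval m).exists_max_image id hne
        rw [mem_filter] at hp
        refine ⟨p, hp.1, hp.2, fun l' hl' hd' => ?_⟩
        have h4 := mem_pr.1 hl'
        have h5 := mem_pr.1 hp.1
        have h6 : l' ∈ P.filter fun l : ℕ => (l : ℤ) ∣ h.eval m := by
          rw [mem_filter]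
          exact ⟨mem_pr.2 ⟨⟨by omega, h4.1.2⟩, h4.2⟩, hd'⟩
        have h7 : l' ≤ p := hpm l' h6
        omega
      obtain ⟨p, hp, hpd, hpm⟩ := hmax h1 ⟨l1, hl1, hd1'⟩
      obtain ⟨q, hq, hqd, hqm⟩ := hmax h2 ⟨l2, hl2, hd2'⟩
      rw [mem_biUnion]
      refine ⟨p, hp, ?_⟩
      rw [mem_biUnion]
      refine ⟨q, hq, ?_⟩
      show m ∈ S.filter (Pp p q)
      rw [mem_filter]
      exact ⟨hm, (hPp p q m).2 ⟨hpd, hqd, hpm, hqm⟩⟩
  have hc0 : (S0.card : ℝ) ≤ Ka * Y * Real.exp (-ll y) := by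
    refine HA Y y M hy hya (by omega) S0 fun m hm => ?_
    rw [hS0, mem_filter] at hm
    exact ⟨(hSI m hm.1).1, (hSI m hm.1).2, hm.2⟩
  have hcp : ∀ p ∈ P, ∀ q ∈ P, ((Sp p q).card : ℝ) ≤
      Kb * Y * (Real.exp (-(2 * ll y)) * gg (Exc ch1 w1) (Exc ch2 w2) (ll y) p q) := by
    intro p hp q hq
    refine HB Y y M hy hyb p q hp hq (Sp p q) fun m hm => ?_
    change m ∈ S.filter (Pp p q) at hm
    rw [mem_filter, hPp] at hm
    exact ⟨(hSI m hm.1).1, (hSI m hm.1).2, hm.2.1, hm.2.2.1, hm.2.2.2.1, hm.2.2.2.2, hS m hm.1⟩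
  have hcard : (S.card : ℝ) ≤ S0.card + ∑ p ∈ P, ∑ q ∈ P, ((Sp p q).card : ℝ) := by
    have h3 : S.card ≤ S0.card + ∑ p ∈ P, ∑ q ∈ P, (Sp p q).card := by
      refine (card_le_card hcov).trans ((card_union_le _ _).trans ?_)
      refine Nat.add_le_add_left ?_ _
      refine card_biUnion_le.trans (sum_le_sum fun p _ => card_biUnion_le)
    exact_mod_cast h3
  have hsum : ∑ p ∈ P, ∑ q ∈ P, ((Sp p q).card : ℝ) ≤
      Kb * Y * (Real.exp (-(2 * ll y)) * (Kg * ((ll y + 3) ^ 2 * Real.log y))) := by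
    calc ∑ p ∈ P, ∑ q ∈ P, ((Sp p q).card : ℝ) ≤ ∑ p ∈ P, ∑ q ∈ P,
          Kb * Y * (Real.exp (-(2 * ll y)) * gg (Exc ch1 w1) (Exc ch2 w2) (ll y) p q) :=
          sum_le_sum fun p hp => sum_le_sum fun q hq => hcp p hp q hq
      _ = Kb * Y * (Real.exp (-(2 * ll y)) * ∑ p ∈ P, ∑ q ∈ P, gg (Exc ch1 w1) (Exc ch2 w2) (ll y) p q) := by
          simp only [← mul_sum]
      _ ≤ _ := by
          apply mul_le_mul_of_nonneg_left _ (by positivity)
          apply mul_le_mul_of_nonneg_left _ (Real.exp_pos _).le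
          exact HG B y (by omega) hy
  have hE : Real.exp (-(2 * ll y)) * Real.log y = Real.exp (-ll y) := by
    rw [← exp_ll hy, ← Real.exp_add]
    congr 1
    ring
  have h5 : (1 : ℝ) ≤ (ll y + 3) ^ 2 := by nlinarith
  have h6 := Real.exp_pos (-ll y)
  have hY' : (0 : ℝ) ≤ Y := Nat.cast_nonneg Y
  have h7 : (S0.card : ℝ) ≤ Ka * (Y * (Real.exp (-ll y) * (ll y + 3) ^ 2)) := by
    refine hc0.trans ?_
    have h8 : Real.exp (-ll y) ≤ Real.exp (-ll y) * (ll y + 3) ^ 2 := le_mul_of_one_le_right h6.le h5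
    calc Ka * Y * Real.exp (-ll y) ≤ Ka * Y * (Real.exp (-ll y) * (ll y + 3) ^ 2) :=
          mul_le_mul_of_nonneg_left h8 (by positivity)
      _ = _ := by ring
  have h8 : Kb * Y * (Real.exp (-(2 * ll y)) * (Kg * ((ll y + 3) ^ 2 * Real.log y))) =
      Kb * Kg * (Y * (Real.exp (-ll y) * (ll y + 3) ^ 2)) := by
    rw [← hE]
    ring
  rw [h8] at hsum
  have h9 : (S.card : ℝ) ≤ (Ka + Kb * Kg) * (Y * (Real.exp (-ll y) * (ll y + 3) ^ 2)) := by linarith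
  have h10 := mul_le_mul_of_nonneg_left hconv (by positivity : 0 ≤ Ka + Kb * Kg)
  have h11 : 0 ≤ C0 * rate Y := by positivity
  calc (S.card : ℝ) ≤ (Ka + Kb * Kg) * (Y * (Real.exp (-ll y) * (ll y + 3) ^ 2)) := h9
    _ ≤ (Ka + Kb * Kg) * ((2 * T * 1600) * rate Y) := h10
    _ ≤ _ := by
      rw [add_mul, ← mul_assoc]
      linarith

end Pool.Agent.H37.PB
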