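import Pool.Agent.H37.PPD.MO
import Pool.Agent.H37.PPC.Sv
import Pool.Agent.H37.PPC.Mt

/-!
Project PB (MP_e38f6a_co): orders among the values of a polynomial, with a rate.  Definitions (note 5373).
(`pr a b` = primes in `[a,b)`, `ll n = log log n`: H37/PPC, H37/PPD.)
-/

set_option autoImplicit false

namespace Pool.Agent.H37.PB

open Finset Polynomial Pool.Agent.H37.PPC Pool.Agent.H37.PPD

/-- the roots of `h` modulo `l` -/
def rt (h : ℤ[X]) (l : ℕ) : Finset ℕ := (range l).filter fun r : ℕ => (l : ℤ) ∣ h.eval (r : ℤ)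

/-- `w` is a weight for `h`: at most the number of roots mod `l` (`l > B` prime), with `∑ w l / l = log log + O(1)` -/
structure Wt (h : ℤ[X]) (B D : ℕ) (C : ℝ) (w : ℕ → ℝ) : Prop where
  nn : ∀ l, 0 ≤ w l
  le : ∀ l, w l ≤ D
  lo : ∀ l : ℕ, l.Prime → B < l → w l ≤ (rt h l).card
  up : ∀ l : ℕ, l.Prime → B < l → (rt h l).card ≤ D
  me : ∀ a b : ℕ, 2 ≤ a → a ≤ b → |∑ l ∈ pr a b, w l / l - (ll b - ll a)| ≤ C

/-- the weighted character sum -/
noncomputable def Fx (χ : ℕ → ℕ → ℝ) (w : ℕ → ℝ) (i k m : ℕ) : ℝ :=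
  ∑ l ∈ pr (i ^ 4) (2 ^ 2 ^ k), w l * χ l m / l

/-- exceptional integers -/
def Exc (χ : ℕ → ℕ → ℝ) (w : ℕ → ℝ) (m : ℕ) : Prop :=
  ∃ k : ℕ, 4 * 2 ^ k ≤ Nat.log 2 m ∧ 1 < |Fx χ w (Nat.log 2 m) k m|

/-- `log log log` with a shift -/
noncomputable def lam (q : ℕ) : ℝ := Real.log (ll q + 3)

/-- the rate `Y (log log Y)² / log Y` -/
noncomputable def rate (Y : ℕ) : ℝ := Y * ll Y ^ 2 / Real.log Y

end Pool.Agent.H37.PB
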